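import Pool.Agent.TH497.TW.Flow
import Mathlib.Combinatorics.SimpleGraph.Acyclic

set_option autoImplicit false

/-! # The usual definition of tree decompositions -/

namespace Pool.Agent.TH497.TW

open Finset Pool.Agent.TH497.PW

/-- the bags satisfy the path condition -/
def PathCond {V ι : Type} (T : SimpleGraph ι) (C : ι → Finset V) : Prop :=
  ∀ (i j : ι) (p : T.Walk i j), p.IsPath → ∀ k ∈ p.support, ∀ v, v ∈ C i → v ∈ C j → v ∈ C k

theorem PathCond.induce {V ι : Type} {T : SimpleGraph ι} {C : ι → Finset V}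
    (h : PathCond T C) (s : Set ι) : PathCond (T.induce s) (fun i => C i.1) := by
  intro i j p hp k hk v hi hj
  have h1 := SimpleGraph.Walk.map_isPath_of_injective
    (f := (SimpleGraph.Embedding.induce (G := T) s).toHom)
    (SimpleGraph.Embedding.induce (G := T) s).injective hp
  refine h _ _ _ h1 k.1 ?_ v hi hj
  rw [SimpleGraph.Walk.support_map]
  exact List.mem_map.mpr ⟨k, hk, rfl⟩

/-- numbering of the nodes of a finite tree -/
theorem numbering {V : Type} (m : ℕ) : ∀ (ι : Type) [Fintype ι] (T : SimpleGraph ι)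
    (C : ι → Finset V), T.IsTree → PathCond T C → Fintype.card ι = m + 1 →
    ∃ (num : ι → ℕ) (par : ℕ → ℕ), Function.Injective num ∧ (∀ i, num i < m + 1) ∧
      (∀ a, 0 < a → a < m + 1 → par a < a) ∧
      ∀ i j v, num j < num i → v ∈ C i → v ∈ C j → ∃ k, num k = par (num i) ∧ v ∈ C k := by
  classical
  induction m with
  | zero =>
    intro ι _ T C _ _ hc
    have hs : ∀ i j : ι, i = j := by
      intro i j
      have h1 : Fintype.card ι ≤ 1 := by omega
      exact Fintype.card_le_one_iff.mp h1 i j
    exact ⟨fun _ => 0, fun _ => 0, fun i j _ => hs i j, fun _ => by norm_num,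
      fun a h1 h2 => by omega, fun i j v h => by simp at h⟩
  | succ m ih =>
    intro ι _ T C hT hC hc
    haveI : Nontrivial ι := Fintype.one_lt_card_iff_nontrivial.mp (by omega)
    obtain ⟨l, hl⟩ := hT.exists_vert_degree_one_of_nontrivial
    obtain ⟨u, hlu, hu⟩ := SimpleGraph.degree_eq_one_iff_existsUnique_adj.mp hl
    have hul : u ≠ l := fun h => by
      rw [h] at hlu
      exact T.loopless.irrefl l hlu
    have hT' : (T.induce ({l}ᶜ : Set ι)).IsTree :=
      ⟨hT.connected.induce_compl_singleton_of_degree_eq_one hl, hT.isAcyclic.induce _⟩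
    have hc' : Fintype.card ({l}ᶜ : Set ι) = m + 1 := by
      have h1 := Fintype.card_compl_set ({l} : Set ι)
      rw [Set.card_singleton, hc] at h1
      exact h1
    obtain ⟨num, par, h1, h2, h3, h4⟩ := ih _ (T.induce ({l}ᶜ : Set ι)) _ hT' (hC.induce _) hc'
    have hmem : ∀ i, i ≠ l → i ∈ ({l}ᶜ : Set ι) := fun i hi => by simpa using hi
    set num' : ι → ℕ := fun i => if h : i ∈ ({l}ᶜ : Set ι) then num ⟨i, h⟩ else m + 1 with hn'
    have hn1 : ∀ i (h : i ∈ ({l}ᶜ : Set ι)), num' i = num ⟨i, h⟩ := fun i h => by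
      rw [hn']; exact dif_pos h
    have hn2 : num' l = m + 1 := by
      rw [hn']; exact dif_neg (by simp)
    refine ⟨num', fun a => if a = m + 1 then num ⟨u, hmem u hul⟩ else par a, ?_, ?_, ?_, ?_⟩
    · intro i j hij
      by_cases hi : i = l <;> by_cases hj : j = l
      · rw [hi, hj]
      · rw [hi, hn2, hn1 j (hmem j hj)] at hij
        have := h2 ⟨j, hmem j hj⟩
        omega
      · rw [hj, hn2, hn1 i (hmem i hi)] at hij
        have := h2 ⟨i, hmem i hi⟩
        omega
      · rw [hn1 i (hmem i hi), hn1 j (hmem j hj)] at hij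
        exact congrArg Subtype.val (h1 hij)
    · intro i
      by_cases hi : i = l
      · rw [hi, hn2]; omega
      · rw [hn1 i (hmem i hi)]
        have := h2 ⟨i, hmem i hi⟩
        omega
    · intro a ha ha2
      change (if a = m + 1 then num ⟨u, hmem u hul⟩ else par a) < a
      split_ifs with h
      · rw [h]; exact h2 _
      · exact h3 a ha (by omega)
    · intro i j v hji hvi hvj
      change ∃ k, num' k = (if num' i = m + 1 then num ⟨u, hmem u hul⟩ else par (num' i)) ∧ v ∈ C k
      by_cases hi : i = l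
      · subst hi
        rw [if_pos hn2]
        have hj : j ≠ i := fun h => by rw [h] at hji; omega
        refine ⟨u, hn1 u (hmem u hul), ?_⟩
        obtain ⟨p, hp⟩ := hT.connected.exists_isPath i j
        refine hC i j p hp u ?_ v hvi hvj
        have hnil : ¬ p.Nil := SimpleGraph.Walk.not_nil_of_ne (Ne.symm hj)
        have h5 := p.adj_snd hnil
        rw [← hu _ h5]
        exact p.getVert_mem_support 1
      · have hi' := h2 ⟨i, hmem i hi⟩
        have hj : j ≠ l := by
          intro h
          rw [h, hn2, hn1 i (hmem i hi)] at hji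
          omega
        rw [hn1 i (hmem i hi), hn1 j (hmem j hj)] at hji
        obtain ⟨k, hk, hk2⟩ := h4 ⟨i, hmem i hi⟩ ⟨j, hmem j hj⟩ v hji hvi hvj
        refine ⟨k.1, ?_, hk2⟩
        rw [hn1 i (hmem i hi), if_neg (by omega), hn1 k.1 k.2]
        exact hk

variable {V E : Type} [DecidableEq V]

/-- from the usual definition -/
theorem HasTD.of_tree {ι : Type} [Fintype ι] {T : SimpleGraph ι} {C : ι → Finset V}
    {src dst : E → V} {w : ℕ} (hT : T.IsTree) (hC : PathCond T C)
    (he : ∀ e, ∃ i, src e ∈ C i ∧ dst e ∈ C i) (hw : ∀ i, (C i).card ≤ w) :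
    HasTD w src dst := by
  classical
  obtain ⟨m, hm⟩ : ∃ m, Fintype.card ι = m + 1 := by
    haveI := hT.connected.nonempty
    exact ⟨Fintype.card ι - 1, by have := Fintype.card_pos (α := ι); omega⟩
  obtain ⟨num, par, h1, h2, h3, h4⟩ := numbering m ι T C hT hC hm
  have hsurj : ∀ a, a < m + 1 → ∃ i, num i = a := by
    intro a ha
    have hb : Function.Bijective (fun i => (⟨num i, h2 i⟩ : Fin (m + 1))) := by
      rw [Fintype.bijective_iff_injective_and_card]
      refine ⟨fun i j hij => h1 (by simpa using hij), by rw [hm, Fintype.card_fin]⟩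
    obtain ⟨i, hi⟩ := hb.2 ⟨a, ha⟩
    exact ⟨i, by simpa using congrArg Fin.val hi⟩
  haveI := hT.connected.nonempty
  have hinv : ∀ i, Function.invFun num (num i) = i := Function.leftInverse_invFun h1
  refine ⟨m + 1, par, fun a => C (Function.invFun num a), h3, ?_, ?_, fun a _ => hw _⟩
  · intro e
    obtain ⟨i, hi1, hi2⟩ := he e
    refine ⟨num i, h2 i, ?_⟩
    change src e ∈ C (Function.invFun num (num i)) ∧ dst e ∈ C (Function.invFun num (num i))
    rw [hinv i]
    exact ⟨hi1, hi2⟩
  · intro a b v hba ha hva hvb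
    obtain ⟨i, rfl⟩ := hsurj a ha
    obtain ⟨j, rfl⟩ := hsurj b (by omega)
    change v ∈ C (Function.invFun num (num i)) at hva
    change v ∈ C (Function.invFun num (num j)) at hvb
    change v ∈ C (Function.invFun num (par (num i)))
    rw [hinv] at hva hvb
    obtain ⟨k, hk, hk2⟩ := h4 i j v hba hva hvb
    rw [← hk, hinv]
    exact hk2

end Pool.Agent.TH497.TW
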