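import Pool.Agent.TH497.TW.Tree

set_option autoImplicit false

/-! # Graphs of small treewidth -/

namespace Pool.Agent.TH497.TW

open Finset Pool.Agent.TH497.PW

variable {V E : Type} [Fintype V] [DecidableEq V] [Fintype E] [DecidableEq E]

/-- a rooted tree decomposition with bags of at most `w` vertices: the nodes are `0, ..., n - 1`,
the parent of `i > 0` is `par i < i` -/
def HasTD (w : ℕ) (src dst : E → V) : Prop :=
  ∃ (n : ℕ) (par : ℕ → ℕ) (B : ℕ → Finset V), (∀ i, 0 < i → i < n → par i < i) ∧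
    (∀ e, ∃ i, i < n ∧ src e ∈ B i ∧ dst e ∈ B i) ∧
    (∀ i j v, j < i → i < n → v ∈ B i → v ∈ B j → v ∈ B (par i)) ∧
    ∀ i, i < n → (B i).card ≤ w

omit [Fintype V] [Fintype E] in
theorem HasTD.loop {w : ℕ} (src dst : E → V) (D : Finset E) (h : HasTD w src dst) :
    HasTD w src (PW.lp src dst D) := by
  obtain ⟨n, par, B, h0, h1, h2, h4⟩ := h
  refine ⟨n, par, B, h0, fun e => ?_, h2, h4⟩
  obtain ⟨i, hin, hi1, hi2⟩ := h1 e
  refine ⟨i, hin, hi1, ?_⟩
  unfold PW.lp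
  split_ifs
  · exact hi1
  · exact hi2

omit [Fintype V] [DecidableEq V] in
theorem two_conn {n : ℕ} {par : ℕ → ℕ} {B : ℕ → Finset V}
    (h0 : ∀ i, 0 < i → i < n → par i < i)
    (h2 : ∀ i j v, j < i → i < n → v ∈ B i → v ∈ B j → v ∈ B (par i)) {a a' : V}
    (hb : ∃ b, b < n ∧ a ∈ B b ∧ a' ∈ B b) {i j : ℕ} (hji : j < i) (hi : i < n)
    (ha : a ∈ B i) (ha' : a' ∈ B j) : a ∈ B (par i) ∨ a' ∈ B (par i) := by
  classical
  obtain ⟨hb1, hb2, hb3⟩ := Nat.find_spec hb
  have hmin := fun m => @Nat.find_min' _ _ hb m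
  generalize Nat.find hb = b at hb1 hb2 hb3 hmin
  rcases Nat.lt_trichotomy b i with h | h | h
  · exact Or.inl (h2 i b a h hi ha hb2)
  · subst h
    exact Or.inr (h2 b j a' hji hi hb3 ha')
  · have h5 := h2 b i a h hb1 hb2 ha
    have h6 := h2 b j a' (by omega) hb1 hb3 ha'
    have h7 := h0 b (by omega) hb1
    have := hmin (par b) ⟨by omega, h5, h6⟩
    omega

omit [Fintype V] [Fintype E] [DecidableEq E] in
theorem HasTD.contract {w : ℕ} (src dst : E → V) (e : E) (h : HasTD w src dst)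
    (hne : src e ≠ dst e) :
    HasTD w (phi (src e) (dst e) ∘ src) (phi (src e) (dst e) ∘ dst) := by
  obtain ⟨n, par, B, h0, h1, h2, h4⟩ := h
  refine ⟨n, par, fun i => (B i).image (phi (src e) (dst e)), h0, ?_, ?_,
    fun i hi => card_image_le.trans (h4 i hi)⟩
  · intro d
    obtain ⟨i, hin, hi1, hi2⟩ := h1 d
    exact ⟨i, hin, mem_image_of_mem _ hi1, mem_image_of_mem _ hi2⟩
  · have hm : ∀ i v, v ∈ (B i).image (phi (src e) (dst e)) ↔
        (v ∈ B i ∧ v ≠ dst e) ∨ (v = src e ∧ dst e ∈ B i) := by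
      intro i v
      rw [mem_image]
      unfold phi
      constructor
      · rintro ⟨y, hy, hyv⟩
        by_cases h : y = dst e
        · rw [if_pos h] at hyv
          exact Or.inr ⟨hyv.symm, h ▸ hy⟩
        · rw [if_neg h] at hyv
          exact Or.inl ⟨hyv ▸ hy, hyv ▸ h⟩
      · rintro (⟨h5, h6⟩ | ⟨h5, h6⟩)
        · exact ⟨v, h5, if_neg h6⟩
        · exact ⟨dst e, h6, by rw [if_pos rfl, h5]⟩
    intro i j v hji hi hvi hvj
    change v ∈ (B i).image (phi (src e) (dst e)) at hvi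
    change v ∈ (B j).image (phi (src e) (dst e)) at hvj
    change v ∈ (B (par i)).image (phi (src e) (dst e))
    rw [hm] at hvi hvj ⊢
    obtain ⟨b, hbn, hb1, hb2⟩ := h1 e
    rcases hvi with ⟨h5, h6⟩ | ⟨h5, h6⟩ <;> rcases hvj with ⟨h7, h8⟩ | ⟨h7, h8⟩
    · exact Or.inl ⟨h2 i j v hji hi h5 h7, h6⟩
    · rw [h7] at h5
      rcases two_conn h0 h2 ⟨b, hbn, hb1, hb2⟩ hji hi h5 h8 with h | h
      · rw [h7]; exact Or.inl ⟨h, hne⟩
      · exact Or.inr ⟨h7, h⟩
    · rw [h5] at h7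
      rcases two_conn h0 h2 ⟨b, hbn, hb2, hb1⟩ hji hi h6 h7 with h | h
      · exact Or.inr ⟨h5, h⟩
      · rw [h5]; exact Or.inl ⟨h, hne⟩
    · exact Or.inr ⟨h5, h2 i j _ hji hi h6 h8⟩

omit [DecidableEq E] in
theorem HasTD.nzf {dflt : SwR} {Ev : Env} {PT : List PosT} {tb : Tb} {vt : ℕ → Tb} {K : ℕ}
    (hT : Tab dflt Ev PT tb vt K) {src dst : E → V} (h : HasTD K src dst) (h3 : H3 src dst) :
    NZF src dst := by
  classical
  rcases isEmpty_or_nonempty V with hV | ⟨⟨v0⟩⟩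
  · exact ⟨fun _ => 1, fun e => (hV.false (src e)).elim, fun x => (hV.false x).elim⟩
  obtain ⟨n, par, B, h0, h1, h2, h4⟩ := h
  rcases Nat.eq_zero_or_pos n with hn | hn
  · have hE : IsEmpty E := ⟨fun e => by
      obtain ⟨i, hi, _⟩ := h1 e
      omega⟩
    exact ⟨fun _ => 1, fun e => (hE.false e).elim, fun x => by simp⟩
  apply nzf_of_ext
  refine ext_of_TD hT h3 (N := range n) (par := par)
    (B := fun i => (B i).filter (fun x => Nis src dst x)) v0 ⟨?_, ?_, ?_, ?_, ?_⟩ ?_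
  · exact mem_range.mpr hn
  · intro i hi hi0
    rw [mem_range] at hi
    have := h0 i (by omega) hi
    exact ⟨mem_range.mpr (by omega), this⟩
  · intro e he
    obtain ⟨i, hi, h5, h6⟩ := h1 e
    exact ⟨i, mem_range.mpr hi, mem_filter.mpr ⟨h5, e, he, Or.inl rfl⟩,
      mem_filter.mpr ⟨h6, e, he, Or.inr rfl⟩⟩
  · intro i hi j _ v hji hvi hvj
    rw [mem_filter] at hvi hvj
    exact mem_filter.mpr ⟨h2 i j v hji (mem_range.mp hi) hvi.1 hvj.1, hvi.2⟩
  · intro i hi
    exact (card_filter_le _ _).trans (h4 i (mem_range.mp hi))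
  · intro i x hx
    exact (mem_filter.mp hx).2

/-- **Main theorem with the tables as a hypothesis.** -/
theorem flow_of_tab {dflt : SwR} {Ev : Env} {PT : List PosT} {tb : Tb} {vt : ℕ → Tb} {K : ℕ}
    (hT : Tab dflt Ev PT tb vt K) (src dst : E → V) (hb : ∀ Y, (dlt src dst Y).card ≠ 1)
    (hTD : HasTD K src dst) : NZF src dst :=
  main_red (HasTD K) (fun src dst e h hne => HasTD.contract src dst e h hne)
    (fun src dst D h => HasTD.loop src dst D h) (fun _ _ h h3 _ => h.nzf hT h3) _ src dst rfl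
    hb hTD

/-- the exchange masks -/
theorem mkEnv_sw {n : ℕ} (p q : ℕ) (hpq : p < q) (hq : q < n) :
    ∃ r ∈ (mkEnv n).sw, r.p = p ∧ r.q = q ∧ r.a.OK 5 n p q ∧ r.b.OK 2 n p q := by
  have hm : (p, q) ∈ pairsU n := by
    induction n with
    | zero => omega
    | succ n ih =>
      rw [pairsU, List.mem_append]
      rcases Nat.lt_or_ge q n with h | h
      · exact Or.inl (ih h)
      · right
        have : q = n := by omega
        subst this
        exact List.mem_map.mpr ⟨p, List.mem_range.mpr hpq, rfl⟩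
  refine ⟨mkSwR n p q, List.mem_map.mpr ⟨(p, q), hm, rfl⟩, rfl, rfl, ?_, ?_⟩
  · exact mkSw_ok (by norm_num) hpq hq
  · exact mkSw_ok (by norm_num) hpq hq

end Pool.Agent.TH497.TW
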