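import Pool.Agent.TH497.PW.Ops

set_option autoImplicit false

/-! # Joining two parts with the same boundary: the closure test -/

namespace Pool.Agent.TH497.TW

open Pool.Agent.TH497.PW

/-- masks for the addition of a value at one position -/
structure PosT where
  w : ℕ
  e1 : ℕ
  e2 : ℕ
  e3 : ℕ
  e4 : ℕ
  h1 : ℕ
  h2 : ℕ
  h3 : ℕ
  h4 : ℕ
  deriving DecidableEq

def mkT (n p : ℕ) : PosT where
  w := 5 ^ p
  e1 := orR (fun y => dM 5 p y (n - 1 - p)) 4
  e2 := orR (fun y => dM 5 p y (n - 1 - p)) 3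
  e3 := orR (fun y => dM 5 p y (n - 1 - p)) 2
  e4 := dM 5 p 0 (n - 1 - p)
  h1 := dM 5 p 4 (n - 1 - p)
  h2 := Nat.lor (dM 5 p 3 (n - 1 - p)) (dM 5 p 4 (n - 1 - p))
  h3 := Nat.lor (dM 5 p 2 (n - 1 - p)) (Nat.lor (dM 5 p 3 (n - 1 - p)) (dM 5 p 4 (n - 1 - p)))
  h4 := Nat.lor (dM 5 p 1 (n - 1 - p))
    (Nat.lor (dM 5 p 2 (n - 1 - p)) (Nat.lor (dM 5 p 3 (n - 1 - p)) (dM 5 p 4 (n - 1 - p))))

noncomputable def rotP (r : PosT) (a S : ℕ) : ℕ :=
  cnd (Nat.beq a 0) S
    (cnd (Nat.beq a 1)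
      (Nat.lor (Nat.shiftLeft (Nat.land S r.e1) r.w)
        (Nat.shiftRight (Nat.land S r.h1) (Nat.mul 4 r.w)))
    (cnd (Nat.beq a 2)
      (Nat.lor (Nat.shiftLeft (Nat.land S r.e2) (Nat.mul 2 r.w))
        (Nat.shiftRight (Nat.land S r.h2) (Nat.mul 3 r.w)))
    (cnd (Nat.beq a 3)
      (Nat.lor (Nat.shiftLeft (Nat.land S r.e3) (Nat.mul 3 r.w))
        (Nat.shiftRight (Nat.land S r.h3) (Nat.mul 2 r.w)))
      (Nat.lor (Nat.shiftLeft (Nat.land S r.e4) (Nat.mul 4 r.w))
        (Nat.shiftRight (Nat.land S r.h4) r.w)))))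

/-- translate all vectors of `S` by the vector with code `z` -/
noncomputable def transl (l : List PosT) : ℕ → ℕ → ℕ :=
  @List.rec PosT (fun _ => ℕ → ℕ → ℕ) (fun _ S => S)
    (fun r _ ih z S => fz (rotP r (Nat.mod z 5) S) fun S' => ih (Nat.div z 5) S') l

noncomputable def addTr (PT : List PosT) (w Ss Se : ℕ) (κ : ℕ → ℕ → Bool) (n : ℕ) :
    ℕ → ℕ → Bool :=
  @Nat.rec (fun _ => ℕ → ℕ → Bool) (fun c U => κ c U)
    (fun _ ih c U => fz (Nat.land c 4095) fun z =>
      cnd (hit Se z) (cnd (Nat.ble (Nat.succ z) w)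
        (fz (Nat.lor U (transl PT z Ss)) fun U' => fz (Nat.shiftRight c 12) fun c' => ih c' U')
        false) false) n

/-- the join of the state `s` and the state `e` is represented -/
noncomputable def joinOne (dflt : SwR) (Ev : Env) (PT : List PosT) (tb : Tb) (w : ℕ) (s e : St)
    (c : ℕ) (κ : ℕ → Bool) : Bool :=
  cnd (Nat.beq e.k s.k)
    (addTr PT w s.S e.S
      (fun c' U =>
        dom dflt Ev tb s.k U (Nat.land s.l0 e.l0)
          (Nat.lor (Nat.land s.l0 e.l1) (Nat.land s.l1 e.l0))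
          (Nat.lor (Nat.land s.l0 e.l2) (Nat.lor (Nat.land s.l1 e.l1) (Nat.land s.l2 e.l0))) c' κ)
      (Nat.land c 255) (Nat.shiftRight c 8) 0) false

noncomputable def joinAll (dflt : SwR) (Ev : Env) (PT : List PosT) (tb : Tb) (w : ℕ) (s : St)
    (vt : Tb) : ℕ → (ℕ → Bool) → Bool :=
  @Tb.rec (fun _ => ℕ → (ℕ → Bool) → Bool)
    (fun e c κ => joinOne dflt Ev PT tb w s e c κ)
    (fun _ _ il ir c κ => il c fun c' => ir c' κ) vt

/-- `e` with its parts contained in the given ones -/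
def subSt (e : St) (k S l0 l1 l2 : ℕ) : Bool :=
  Nat.beq e.k k && (sub e.S S && (sub e.l0 l0 && (sub e.l1 l1 && sub e.l2 l2)))

/-- every exchange of the variant `e` is represented by a variant -/
noncomputable def varSw (vt : Tb) (e : St) (l : List SwR) : ℕ → Bool :=
  @List.rec SwR (fun _ => ℕ → Bool) (fun _ => true)
    (fun r _ ih c => cnd (Nat.ble (Nat.succ r.q) e.k)
      (fz (Nat.shiftRight c 10) fun c' =>
        cnd (Nat.beq (Tb.get vt (Nat.land c 1023)).k e.k)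
        (cnd (sub (r.a.app (Tb.get vt (Nat.land c 1023)).S) e.S)
        (cnd (sub (r.b.app (Tb.get vt (Nat.land c 1023)).l0) e.l0)
        (cnd (sub (r.b.app (Tb.get vt (Nat.land c 1023)).l1) e.l1)
        (cnd (sub (r.b.app (Tb.get vt (Nat.land c 1023)).l2) e.l2) (ih c') false) false)
        false) false) false)
      (ih c)) l

/-- the test for one table state, without joins -/
noncomputable def chkU (dflt : SwR) (Ev : Env) (tb : Tb) (K : ℕ) (vt vt' : Tb) (s : St)
    (c : ℕ) : Bool :=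
  fz (2 ^ s.k) fun kk =>
  fz (2 ^ kk - 1) fun low =>
  fz (2 ^ (5 ^ s.k) - 1) fun low5 =>
  cnd (Nat.ble s.k K)
    (cnd (cnd (Nat.beq s.k 0) (hit s.S 0) true)
      (forg dflt Ev tb s.k s.S s.l0 s.l1 s.l2 s.k c fun c1 =>
        cnd (Nat.beq s.k K) true
          (dom dflt Ev tb (Nat.succ s.k) (Nat.land s.S low5) (opn kk low s.l0) (opn kk low s.l1)
            (opn kk low s.l2) c1 fun c2 =>
            cnd (subSt (Tb.get vt (Nat.land c2 1023)) s.k s.S s.l0 s.l1 s.l2)
              (cnd (Nat.beq (Nat.succ s.k) K)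
                (subSt (Tb.get vt' (Nat.land (Nat.shiftRight c2 10) 1023)) K
                  (Nat.land s.S low5) (opn kk low s.l0) (opn kk low s.l1) (opn kk low s.l2))
                true) false)) false) false

end Pool.Agent.TH497.TW
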