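import Pool.Agent.TH497.TW.Ops
import Pool.Agent.TH497.PW.Red

set_option autoImplicit false

/-! # Soundness of the join test -/

namespace Pool.Agent.TH497.TW

open Finset Pool.Agent.TH497.PW

theorem cnd_tt {α : Type} (x y : α) : cnd true x y = x := rfl

theorem cnd_ff {α : Type} (x y : α) : cnd false x y = y := rfl

/-- soundness of the masks -/
structure PosT.OK (p : ℕ) (r : PosT) : Prop where
  w : r.w = 5 ^ p
  e1 : ∀ c, r.e1.testBit c = true → dg 5 c p < 4
  e2 : ∀ c, r.e2.testBit c = true → dg 5 c p < 3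
  e3 : ∀ c, r.e3.testBit c = true → dg 5 c p < 2
  e4 : ∀ c, r.e4.testBit c = true → dg 5 c p < 1
  h1 : ∀ c, r.h1.testBit c = true → 4 ≤ dg 5 c p
  h2 : ∀ c, r.h2.testBit c = true → 3 ≤ dg 5 c p
  h3 : ∀ c, r.h3.testBit c = true → 2 ≤ dg 5 c p
  h4 : ∀ c, r.h4.testBit c = true → 1 ≤ dg 5 c p

theorem mkT_ok {n p : ℕ} : (mkT n p).OK p := by
  have hd : ∀ a, a < 5 → ∀ t c, (dM 5 p a t).testBit c = true → dg 5 c p = a :=
    fun a ha t c h => ((dM_mem (by norm_num) ha _ _ _).mp h).2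
  refine ⟨rfl, ?_, ?_, ?_, ?_, ?_, ?_, ?_, ?_⟩
  · intro c h
    obtain ⟨x, hx, h2⟩ := (orR_mem _ _ _).mp h
    rw [hd x (by omega) _ _ h2]; exact hx
  · intro c h
    obtain ⟨x, hx, h2⟩ := (orR_mem _ _ _).mp h
    rw [hd x (by omega) _ _ h2]; exact hx
  · intro c h
    obtain ⟨x, hx, h2⟩ := (orR_mem _ _ _).mp h
    rw [hd x (by omega) _ _ h2]; exact hx
  · intro c h
    rw [hd 0 (by omega) _ _ h]; norm_num
  · intro c h
    rw [hd 4 (by omega) _ _ h]
  · intro c h
    change (Nat.lor _ _).testBit c = true at h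
    rw [tb_lor, Bool.or_eq_true] at h
    rcases h with h | h
    · rw [hd 3 (by omega) _ _ h]
    · rw [hd 4 (by omega) _ _ h]; norm_num
  · intro c h
    change (Nat.lor _ (Nat.lor _ _)).testBit c = true at h
    rw [tb_lor, tb_lor, Bool.or_eq_true, Bool.or_eq_true] at h
    rcases h with h | h | h
    · rw [hd 2 (by omega) _ _ h]
    · rw [hd 3 (by omega) _ _ h]; norm_num
    · rw [hd 4 (by omega) _ _ h]; norm_num
  · intro c h
    change (Nat.lor _ (Nat.lor _ (Nat.lor _ _))).testBit c = true at h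
    rw [tb_lor, tb_lor, tb_lor, Bool.or_eq_true, Bool.or_eq_true, Bool.or_eq_true] at h
    rcases h with h | h | h | h
    · rw [hd 1 (by omega) _ _ h]
    · rw [hd 2 (by omega) _ _ h]; norm_num
    · rw [hd 3 (by omega) _ _ h]; norm_num
    · rw [hd 4 (by omega) _ _ h]; norm_num

theorem shl_case {p a c S : ℕ} (ha : a < 5) (hle : a * 5 ^ p ≤ c)
    (hS : S.testBit (c - a * 5 ^ p) = true) (hd : dg 5 (c - a * 5 ^ p) p < 5 - a) :
    ∃ c', S.testBit c' = true ∧
      ∀ i, dg 5 c i = if i = p then (dg 5 c' p + a) % 5 else dg 5 c' i := by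
  refine ⟨c - a * 5 ^ p, hS, ?_⟩
  obtain ⟨c', rfl⟩ : ∃ c', c = c' + a * 5 ^ p := ⟨c - a * 5 ^ p, by omega⟩
  rw [Nat.add_sub_cancel] at hd ⊢
  obtain ⟨c0, h1, h2⟩ := dg_clear (b := 5) (by norm_num) c' p
  intro i
  have e1 : c' + a * 5 ^ p = c0 + (dg 5 c' p + a) * 5 ^ p := by
    conv_lhs => rw [h1]
    ring
  rw [e1, dg_add (by norm_num) h2 (by omega)]
  by_cases hi : i = p
  · rw [if_pos hi, if_pos hi, Nat.mod_eq_of_lt (by omega)]
  · rw [if_neg hi, if_neg hi]
    conv_rhs => rw [h1]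
    rw [dg_add (by norm_num) h2 (dg_lt (by norm_num) _ _), if_neg hi]

theorem shr_case {p a c S : ℕ} (ha : a < 5) (ha0 : 0 < a)
    (hS : S.testBit ((5 - a) * 5 ^ p + c) = true) (hd : 5 - a ≤ dg 5 ((5 - a) * 5 ^ p + c) p) :
    ∃ c', S.testBit c' = true ∧
      ∀ i, dg 5 c i = if i = p then (dg 5 c' p + a) % 5 else dg 5 c' i := by
  refine ⟨(5 - a) * 5 ^ p + c, hS, ?_⟩
  obtain ⟨c0, h1, h2⟩ := dg_clear (b := 5) (by norm_num) ((5 - a) * 5 ^ p + c) p
  obtain ⟨y, hy⟩ : ∃ y, dg 5 ((5 - a) * 5 ^ p + c) p = (5 - a) + y :=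
    ⟨dg 5 ((5 - a) * 5 ^ p + c) p - (5 - a), by omega⟩
  have hlt := dg_lt (b := 5) (by norm_num) ((5 - a) * 5 ^ p + c) p
  have e1 : c = c0 + y * 5 ^ p := by
    rw [hy] at h1
    have : (5 - a + y) * 5 ^ p = (5 - a) * 5 ^ p + y * 5 ^ p := by ring
    omega
  intro i
  by_cases hi : i = p
  · rw [if_pos hi, hy, hi]
    conv_lhs => rw [e1]
    rw [dg_add (by norm_num) h2 (by omega), if_pos rfl]
    have : 5 - a + y + a = y + 5 := by omega
    rw [this, Nat.add_mod_right, Nat.mod_eq_of_lt (by omega)]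
  · rw [if_neg hi]
    conv_lhs => rw [e1]
    conv_rhs => rw [h1]
    rw [dg_add (by norm_num) h2 (by omega), if_neg hi,
      dg_add (by norm_num) h2 (dg_lt (by norm_num) _ _), if_neg hi]

theorem rotP_mem {p : ℕ} {r : PosT} (hr : r.OK p) {a S c : ℕ} (ha : a < 5)
    (h : (rotP r a S).testBit c = true) :
    ∃ c', S.testBit c' = true ∧
      ∀ i, dg 5 c i = if i = p then (dg 5 c' p + a) % 5 else dg 5 c' i := by
  have e2 : Nat.mul 2 r.w = 2 * r.w := rfl
  have e3 : Nat.mul 3 r.w = 3 * r.w := rfl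
  have e4 : Nat.mul 4 r.w = 4 * r.w := rfl
  have hb : ∀ m : ℕ, Nat.beq m m = true := fun m => Nat.beq_refl m
  rcases (by omega : a = 0 ∨ a = 1 ∨ a = 2 ∨ a = 3 ∨ a = 4) with rfl | rfl | rfl | rfl | rfl
  · refine ⟨c, h, fun i => ?_⟩
    by_cases hi : i = p
    · rw [if_pos hi, hi, add_zero, Nat.mod_eq_of_lt (dg_lt (by norm_num) _ _)]
    · rw [if_neg hi]
  · change (Nat.lor (Nat.shiftLeft (Nat.land S r.e1) r.w)
        (Nat.shiftRight (Nat.land S r.h1) (Nat.mul 4 r.w))).testBit c = true at h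
    rw [tb_lor, tb_shl, tb_shr, tb_land, tb_land, Bool.or_eq_true, Bool.and_eq_true,
      Bool.and_eq_true, Bool.and_eq_true, decide_eq_true_eq, e4, hr.w] at h
    rcases h with ⟨h1, h2, h3⟩ | ⟨h2, h3⟩
    · exact shl_case (a := 1) (by norm_num) (by simpa using h1) (by simpa using h2)
        (by simpa using hr.e1 _ h3)
    · exact shr_case (a := 1) (by norm_num) (by norm_num) h2 (hr.h1 _ h3)
  · change (Nat.lor (Nat.shiftLeft (Nat.land S r.e2) (Nat.mul 2 r.w))
        (Nat.shiftRight (Nat.land S r.h2) (Nat.mul 3 r.w))).testBit c = true at h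
    rw [tb_lor, tb_shl, tb_shr, tb_land, tb_land, Bool.or_eq_true, Bool.and_eq_true,
      Bool.and_eq_true, Bool.and_eq_true, decide_eq_true_eq, e2, e3, hr.w] at h
    rcases h with ⟨h1, h2, h3⟩ | ⟨h2, h3⟩
    · exact shl_case (a := 2) (by norm_num) h1 h2 (hr.e2 _ h3)
    · exact shr_case (a := 2) (by norm_num) (by norm_num) h2 (hr.h2 _ h3)
  · change (Nat.lor (Nat.shiftLeft (Nat.land S r.e3) (Nat.mul 3 r.w))
        (Nat.shiftRight (Nat.land S r.h3) (Nat.mul 2 r.w))).testBit c = true at h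
    rw [tb_lor, tb_shl, tb_shr, tb_land, tb_land, Bool.or_eq_true, Bool.and_eq_true,
      Bool.and_eq_true, Bool.and_eq_true, decide_eq_true_eq, e2, e3, hr.w] at h
    rcases h with ⟨h1, h2, h3⟩ | ⟨h2, h3⟩
    · exact shl_case (a := 3) (by norm_num) h1 h2 (hr.e3 _ h3)
    · exact shr_case (a := 3) (by norm_num) (by norm_num) h2 (hr.h3 _ h3)
  · change (Nat.lor (Nat.shiftLeft (Nat.land S r.e4) (Nat.mul 4 r.w))
        (Nat.shiftRight (Nat.land S r.h4) r.w)).testBit c = true at h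
    rw [tb_lor, tb_shl, tb_shr, tb_land, tb_land, Bool.or_eq_true, Bool.and_eq_true,
      Bool.and_eq_true, Bool.and_eq_true, decide_eq_true_eq, e4, hr.w] at h
    rcases h with ⟨h1, h2, h3⟩ | ⟨h2, h3⟩
    · exact shl_case (a := 4) (by norm_num) h1 h2 (hr.e4 _ h3)
    · exact shr_case (a := 4) (by norm_num) (by norm_num) (by simpa using h2)
        (by simpa using hr.h4 _ h3)

theorem dg_div (z j : ℕ) : dg 5 (z / 5) j = dg 5 z (j + 1) := by
  unfold dg
  rw [Nat.div_div_eq_div_mul, ← pow_succ']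

theorem transl_mem (m : ℕ) : ∀ (q : ℕ) (l : List PosT), l.length = m →
    (∀ i, (h : i < l.length) → (l[i]).OK (q + i)) → ∀ (z S c : ℕ),
    (transl l z S).testBit c = true →
    ∃ c', S.testBit c' = true ∧
      ∀ i, dg 5 c i = if q ≤ i ∧ i < q + m then (dg 5 c' i + dg 5 z (i - q)) % 5
        else dg 5 c' i := by
  induction m with
  | zero =>
    intro q l hl _ z S c h
    rw [List.length_eq_zero_iff] at hl
    subst hl
    refine ⟨c, h, fun i => ?_⟩
    rw [if_neg (by omega)]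
  | succ m ih =>
    intro q l hl hOK z S c h
    rcases l with _ | ⟨r, rs⟩
    · simp at hl
    have e : transl (r :: rs) z S
        = fz (rotP r (Nat.mod z 5) S) fun S' => transl rs (Nat.div z 5) S' := rfl
    rw [e, fz_eq] at h
    have hl' : rs.length = m := by simpa using hl
    have h0 : r.OK q := hOK 0 (by simp)
    obtain ⟨c1, h1, h2⟩ := ih (q + 1) rs hl' (fun i hi => by
      have := hOK (i + 1) (by simpa using hi)
      have e2 : q + (i + 1) = q + 1 + i := by ring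
      rw [e2] at this
      exact this) _ _ _ h
    have hz : Nat.mod z 5 = z % 5 := rfl
    have hz2 : Nat.div z 5 = z / 5 := rfl
    rw [hz] at h1
    rw [hz2] at h2
    obtain ⟨c2, h3, h4⟩ := rotP_mem h0 (Nat.mod_lt _ (by norm_num)) h1
    refine ⟨c2, h3, fun i => ?_⟩
    rw [h2 i]
    by_cases hi : q + 1 ≤ i ∧ i < q + 1 + m
    · rw [if_pos hi, if_pos (by omega), h4, if_neg (by omega), dg_div]
      have : i - (q + 1) + 1 = i - q := by omega
      rw [this]
    · rw [if_neg hi, h4]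
      by_cases hi2 : i = q
      · subst hi2
        rw [if_pos rfl, if_pos (by omega), Nat.sub_self]
        have : dg 5 z 0 = z % 5 := by unfold dg; simp
        rw [this]
      · rw [if_neg hi2, if_neg (by omega)]

variable {V E : Type} [DecidableEq V] [DecidableEq E]

omit [DecidableEq V] [DecidableEq E] in
theorem push_sum [DecidableEq V] {k n : ℕ} (hk : k ≤ n) {c c' z : ℕ} (β : ℕ → V)
    (h : ∀ i, dg 5 c i = if 0 ≤ i ∧ i < 0 + n then (dg 5 c' i + dg 5 z (i - 0)) % 5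
      else dg 5 c' i) (x : V) :
    push k β c x = push k β c' x + push k β z x := by
  unfold push
  rw [← sum_add_distrib]
  refine sum_congr rfl fun i hi => ?_
  rw [mem_range] at hi
  have h1 := h i
  rw [if_pos ⟨Nat.zero_le _, by omega⟩, Nat.sub_zero] at h1
  by_cases hx : β i = x
  · rw [if_pos hx, if_pos hx, if_pos hx, h1, ZMod.natCast_mod, Nat.cast_add]
  · rw [if_neg hx, if_neg hx, if_neg hx, add_zero]

theorem Ext.join {src dst : E → V} {F1 F2 : Finset E} (hd : Disjoint F1 F2)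
    {z1 z2 z : V → ZMod 5} (h1 : Ext src dst F1 z1) (h2 : Ext src dst F2 z2)
    (hz : ∀ x, z x = z1 x + z2 x) : Ext src dst (F1 ∪ F2) z := by
  obtain ⟨f, hf, hf2⟩ := h1
  obtain ⟨g, hg, hg2⟩ := h2
  refine ⟨fun e => if e ∈ F1 then f e else g e, ?_, ?_⟩
  · intro e he
    change (if e ∈ F1 then f e else g e) ≠ 0
    by_cases h : e ∈ F1
    · rw [if_pos h]; exact hf e h
    · rw [if_neg h]; exact hg e ((mem_union.mp he).resolve_left h)
  · intro x
    rw [sum_union hd, hz, ← hf2, ← hg2]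
    congr 1
    · refine sum_congr rfl fun e he => ?_
      change (if e ∈ F1 then f e else g e) * _ = _
      rw [if_pos he]
    · refine sum_congr rfl fun e he => ?_
      change (if e ∈ F1 then f e else g e) * _ = _
      rw [if_neg (fun h => disjoint_left.mp hd h he)]

theorem Cl.join {src dst : E → V} {F1 F2 : Finset E} {P1 P2 : Finset V} {k : ℕ} {β : ℕ → V}
    {a b A B : ℕ} (h1 : Cl src dst F1 P1 k β a A) (h2 : Cl src dst F2 P2 k β b B)
    (hF1 : ∀ e ∈ F1, src e ∈ P1 ∧ dst e ∈ P1) (hF2 : ∀ e ∈ F2, src e ∈ P2 ∧ dst e ∈ P2)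
    (hP : ∀ x, x ∈ P1 → x ∈ P2 → ∃ i, i < k ∧ β i = x) :
    Cl src dst (F1 ∪ F2) (P1 ∪ P2) k β (a + b) (Nat.land A B) := by
  intro J hJ hL
  rw [tb_land, Bool.and_eq_true] at hL
  obtain ⟨Y1, hY1, h3, h4⟩ := h1 J hJ hL.1
  obtain ⟨Y2, hY2, h5, h6⟩ := h2 J hJ hL.2
  have k1 : ∀ x, x ∈ P1 → (x ∈ Y1 ∪ Y2 ↔ x ∈ Y1) := by
    intro x hx
    rw [mem_union]
    constructor
    · rintro (h | h)
      · exact h
      · obtain ⟨i, hi, rfl⟩ := hP x hx (hY2 h)
        exact (h3 i hi).mpr ((h5 i hi).mp h)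
    · exact Or.inl
  have k2 : ∀ x, x ∈ P2 → (x ∈ Y1 ∪ Y2 ↔ x ∈ Y2) := by
    intro x hx
    rw [mem_union]
    constructor
    · rintro (h | h)
      · obtain ⟨i, hi, rfl⟩ := hP x (hY1 h) hx
        exact (h5 i hi).mpr ((h3 i hi).mp h)
      · exact h
    · exact Or.inr
  refine ⟨Y1 ∪ Y2, union_subset_union hY1 hY2, ?_, ?_⟩
  · intro i hi
    rw [mem_union]
    constructor
    · rintro (h | h)
      · exact (h3 i hi).mp h
      · exact (h5 i hi).mp h
    · intro h; exact Or.inl ((h3 i hi).mpr h)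
  · have e1 : cross src dst F1 (Y1 ∪ Y2) = cross src dst F1 Y1 := by
      apply cross_congr
      intro e he
      rw [k1 _ (hF1 e he).1, k1 _ (hF1 e he).2]
    have e2 : cross src dst F2 (Y1 ∪ Y2) = cross src dst F2 Y2 := by
      apply cross_congr
      intro e he
      rw [k2 _ (hF2 e he).1, k2 _ (hF2 e he).2]
    have e3 : cross src dst (F1 ∪ F2) (Y1 ∪ Y2)
        ≤ cross src dst F1 (Y1 ∪ Y2) + cross src dst F2 (Y1 ∪ Y2) := by
      unfold cross
      rw [filter_union]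
      exact card_union_le _ _
    omega

theorem addTr_sound {PT : List PosT} {w Ss Se : ℕ} {κ : ℕ → ℕ → Bool} (n : ℕ) : ∀ c U,
    addTr PT w Ss Se κ n c U = true →
    ∃ U' c', κ c' U' = true ∧ ∀ c0, U'.testBit c0 = true →
      U.testBit c0 = true ∨ ∃ z, z < w ∧ Se.testBit z = true ∧
        (transl PT z Ss).testBit c0 = true := by
  induction n with
  | zero =>
    intro c U h
    exact ⟨U, c, h, fun c0 h0 => Or.inl h0⟩
  | succ n ih =>
    intro c U h
    have e : addTr PT w Ss Se κ (n + 1) c U = fz (Nat.land c 4095) fun z =>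
      cnd (hit Se z) (cnd (Nat.ble (Nat.succ z) w)
        (fz (Nat.lor U (transl PT z Ss)) fun U' => fz (Nat.shiftRight c 12) fun c' =>
          addTr PT w Ss Se κ n c' U') false) false := rfl
    rw [e, fz_eq, cnd_false_iff, cnd_false_iff, fz_eq, fz_eq] at h
    obtain ⟨h1, h2, h3⟩ := h
    obtain ⟨U', c', h4, h5⟩ := ih _ _ h3
    refine ⟨U', c', h4, fun c0 h0 => ?_⟩
    rcases h5 c0 h0 with h6 | h6
    · rw [tb_lor, Bool.or_eq_true] at h6
      rcases h6 with h6 | h6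
      · exact Or.inl h6
      · exact Or.inr ⟨_, Nat.le_of_ble_eq_true h2, hit_iff h1, h6⟩
    · exact Or.inr h6

/-- the join of two realized states is represented in the table -/
theorem joinOne_sound {dflt : SwR} {Ev : Env} {tb : Tb} {n : ℕ} (hE : Ev.OK n dflt)
    {PT : List PosT} (hPT : PT = (List.range n).map (mkT n)) {s e : St} (hk : s.k ≤ n) {c : ℕ}
    {κ : ℕ → Bool} (h : joinOne dflt Ev PT tb (5 ^ s.k) s e c κ = true) :
    (∃ c', κ c' = true) ∧ e.k = s.k ∧
    ∀ (src dst : E → V) (F1 F2 : Finset E) (P1 P2 : Finset V) (β : ℕ → V),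
      Real src dst F1 P1 s.k β s.S s.l0 s.l1 s.l2 →
      Real src dst F2 P2 s.k β e.S e.l0 e.l1 e.l2 → Disjoint F1 F2 →
      (∀ e ∈ F1, src e ∈ P1 ∧ dst e ∈ P1) → (∀ e ∈ F2, src e ∈ P2 ∧ dst e ∈ P2) →
      (∀ x, x ∈ P1 → x ∈ P2 → ∃ i, i < s.k ∧ β i = x) →
      InT tb src dst (F1 ∪ F2) (P1 ∪ P2) s.k β := by
  unfold joinOne at h
  rw [cnd_false_iff] at h
  obtain ⟨h1, h2⟩ := h
  obtain ⟨U, c', h3, h4⟩ := addTr_sound _ _ _ h2
  obtain ⟨h5, h6⟩ := dom_sound (V := V) (E := E) hE hk h3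
  refine ⟨h5, Nat.eq_of_beq_eq_true h1, ?_⟩
  intro src dst F1 F2 P1 P2 β hR1 hR2 hd hF1 hF2 hP
  apply h6
  refine ⟨?_, ?_, ?_, ?_⟩
  · intro c0 hc0 hU
    rcases h4 c0 hU with h7 | ⟨z, hz, hz2, hz3⟩
    · simp at h7
    · obtain ⟨c1, h8, h9⟩ := transl_mem n 0 PT (by rw [hPT]; simp) (by
        subst hPT
        intro i hi
        simp only [List.getElem_map, List.getElem_range, zero_add]
        exact mkT_ok) z _ _ hz3
      have hc1 : c1 < 5 ^ s.k := by
        rw [lt_pow_iff (by norm_num)] at hc0 hz ⊢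
        intro i hi
        have h10 := h9 i
        rw [hc0 i hi] at h10
        have h11 := dg_lt (b := 5) (by norm_num) c1 i
        split_ifs at h10 with h12
        · rw [Nat.sub_zero, hz i hi, add_zero, Nat.mod_eq_of_lt h11] at h10
          exact h10.symm
        · exact h10.symm
      exact Ext.join hd (hR1.fl c1 hc1 h8) (hR2.fl z hz hz2) (fun x => push_sum hk β h9 x)
  · exact Cl.join hR1.c0 hR2.c0 hF1 hF2 hP
  · have g1 : Cl src dst (F1 ∪ F2) (P1 ∪ P2) s.k β 1 _ := Cl.join hR1.c0 hR2.c1 hF1 hF2 hP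
    have g2 : Cl src dst (F1 ∪ F2) (P1 ∪ P2) s.k β 1 _ := Cl.join hR1.c1 hR2.c0 hF1 hF2 hP
    exact g1.or g2
  · have g1 : Cl src dst (F1 ∪ F2) (P1 ∪ P2) s.k β 2 _ := Cl.join hR1.c0 hR2.c2 hF1 hF2 hP
    have g2 : Cl src dst (F1 ∪ F2) (P1 ∪ P2) s.k β 2 _ := Cl.join hR1.c1 hR2.c1 hF1 hF2 hP
    have g3 : Cl src dst (F1 ∪ F2) (P1 ∪ P2) s.k β 2 _ := Cl.join hR1.c2 hR2.c0 hF1 hF2 hP
    exact g1.or (g2.or g3)

theorem joinAll_sound {dflt : SwR} {Ev : Env} {tb : Tb} {n : ℕ} (hE : Ev.OK n dflt)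
    {PT : List PosT} (hPT : PT = (List.range n).map (mkT n)) {s : St} (hk : s.k ≤ n)
    (vt : Tb) : ∀ (c : ℕ) (κ : ℕ → Bool),
    joinAll dflt Ev PT tb (5 ^ s.k) s vt c κ = true →
    (∃ c', κ c' = true) ∧ ∀ j, ∃ c' κ', joinOne dflt Ev PT tb (5 ^ s.k) s (vt.get j) c' κ' = true := by
  induction vt with
  | lf e =>
    intro c κ h
    exact ⟨(joinOne_sound (V := ℕ) (E := ℕ) hE hPT hk h).1, fun j => ⟨c, κ, h⟩⟩
  | nd l r ihl ihr =>
    intro c κ h
    have h' : joinAll dflt Ev PT tb (5 ^ s.k) s l c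
      (fun c' => joinAll dflt Ev PT tb (5 ^ s.k) s r c' κ) = true := h
    obtain ⟨⟨c1, h1⟩, h2⟩ := ihl _ _ h'
    obtain ⟨h3, h4⟩ := ihr _ _ h1
    refine ⟨h3, fun j => ?_⟩
    have e : (Tb.nd l r).get j = cnd (Nat.beq (Nat.land j 1) 0) (l.get (Nat.shiftRight j 1))
      (r.get (Nat.shiftRight j 1)) := rfl
    rw [e]
    cases Nat.beq (Nat.land j 1) 0 with
    | true => exact h2 _
    | false => exact h4 _

/-- represented by a variant with the same labelling -/
def InV (vt : Tb) (src dst : E → V) (F : Finset E) (P : Finset V) (k : ℕ) (β : ℕ → V) : Prop :=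
  ∃ j, (vt.get j).k = k ∧
    Real src dst F P k β (vt.get j).S (vt.get j).l0 (vt.get j).l1 (vt.get j).l2

omit [DecidableEq E] in
theorem varSw_sound {vt : Tb} {e : St} {n k : ℕ} (hk : k ≤ n) (l : List SwR) : ∀ c : ℕ,
    e.k = k →
    varSw vt e l c = true → ∀ r ∈ l, r.q < k → r.p < r.q → r.a.OK 5 n r.p r.q →
      r.b.OK 2 n r.p r.q → ∀ (src dst : E → V) (F : Finset E) (P : Finset V) (β : ℕ → V),
      Real src dst F P k β e.S e.l0 e.l1 e.l2 →
      InV vt src dst F P k (β ∘ Equiv.swap r.p r.q) := by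
  induction l with
  | nil => intro c _ _ r hr; simp at hr
  | cons r0 rs ih =>
    intro c hek h r hr hq hpq ha hb src dst F P β hR
    have e1 : varSw vt e (r0 :: rs) c = cnd (Nat.ble (Nat.succ r0.q) e.k)
      (fz (Nat.shiftRight c 10) fun c' =>
        cnd (Nat.beq (Tb.get vt (Nat.land c 1023)).k e.k)
        (cnd (sub (r0.a.app (Tb.get vt (Nat.land c 1023)).S) e.S)
        (cnd (sub (r0.b.app (Tb.get vt (Nat.land c 1023)).l0) e.l0)
        (cnd (sub (r0.b.app (Tb.get vt (Nat.land c 1023)).l1) e.l1)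
        (cnd (sub (r0.b.app (Tb.get vt (Nat.land c 1023)).l2) e.l2) (varSw vt e rs c') false)
          false) false) false) false)
      (varSw vt e rs c) := rfl
    rw [e1] at h
    cases h2 : Nat.ble (Nat.succ r0.q) e.k with
    | true =>
      rw [h2, cnd_tt, fz_eq, cnd_false_iff, cnd_false_iff, cnd_false_iff, cnd_false_iff, cnd_false_iff] at h
      obtain ⟨h3, h4, h5, h6, h7, h8⟩ := h
      rcases List.mem_cons.mp hr with h9 | h9
      · subst h9
        have h3' := Nat.eq_of_beq_eq_true h3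
        refine ⟨_, h3'.trans hek, ?_⟩
        exact Real.swap ha hb hpq hq hk ⟨fun c hc hc2 => hR.fl c hc (sub_mem h4 hc2),
          hR.c0.sub h5, hR.c1.sub h6, hR.c2.sub h7⟩
      · exact ih _ hek h8 r h9 hq hpq ha hb src dst F P β hR
    | false =>
      rw [h2, cnd_ff] at h
      rcases List.mem_cons.mp hr with h9 | h9
      · subst h9
        exfalso
        rw [hek] at h2
        have : Nat.ble (Nat.succ r.q) k = true := Nat.ble_eq_true_of_le hq
        rw [this] at h2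
        exact absurd h2 (by simp)
      · exact ih _ hek h r h9 hq hpq ha hb src dst F P β hR

omit [DecidableEq E] in
theorem Real.congr {src dst : E → V} {F : Finset E} {P : Finset V} {k : ℕ} {β β' : ℕ → V}
    {S l0 l1 l2 : ℕ} (h : Real src dst F P k β S l0 l1 l2) (hβ : ∀ i, i < k → β i = β' i) :
    Real src dst F P k β' S l0 l1 l2 := by
  have hc : ∀ l L, Cl src dst F P k β l L → Cl src dst F P k β' l L := by
    intro l L h2 J hJ hL
    obtain ⟨Y, hY, h3, h4⟩ := h2 J hJ hL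
    exact ⟨Y, hY, fun i hi => by rw [← hβ i hi]; exact h3 i hi, h4⟩
  refine ⟨fun c hc hS => (h.fl c hc hS).congr fun x => ?_, hc _ _ h.c0, hc _ _ h.c1, hc _ _ h.c2⟩
  exact push_congr (fun _ _ => rfl) (fun i hi _ => (hβ i hi).symm) x

omit [DecidableEq E] in
/-- the variants are closed under relabelling -/
theorem InV.permute {vt : Tb} {n k : ℕ} (hk : k ≤ n) {sw : List SwR}
    (hsw : ∀ p q, p < q → q < n → ∃ r ∈ sw, r.p = p ∧ r.q = q ∧ r.a.OK 5 n p q ∧ r.b.OK 2 n p q)
    (hvk : ∀ j, (vt.get j).k = k) (hv : ∀ j, ∃ c, varSw vt (vt.get j) sw c = true)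
    {src dst : E → V} {F : Finset E} {P : Finset V} (m : ℕ) : ∀ (β β' : ℕ → V), m ≤ k →
    (∀ i j, i < k → j < k → β i = β j → i = j) →
    (∀ i j, i < k → j < k → β' i = β' j → i = j) →
    (∀ i, i < k → ∃ j, j < k ∧ β j = β' i) →
    (∀ i, i < k - m → β i = β' i) →
    InV vt src dst F P k β → InV vt src dst F P k β' := by
  induction m with
  | zero =>
    intro β β' _ _ _ _ hag ⟨j, hj, hR⟩
    exact ⟨j, hj, Real.congr hR (fun i hi => hag i (by omega))⟩
  | succ m ih =>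
    intro β β' hm hinj hinj' hr hag hV
    obtain ⟨a, ha⟩ : ∃ a, a = k - (m + 1) := ⟨_, rfl⟩
    have hak : a < k := by omega
    obtain ⟨j, hj, hja⟩ := hr a hak
    have hage : ∀ i, i < a → β i = β' i := fun i hi => hag i (by omega)
    have hja' : a ≤ j := by
      by_contra hlt
      push Not at hlt
      have h1 := hage j hlt
      rw [hja] at h1
      have := hinj' _ _ hak hj h1
      omega
    rcases Nat.eq_or_lt_of_le hja' with h1 | h1
    · subst h1
      refine ih β β' (by omega) hinj hinj' hr ?_ hV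
      intro i hi
      rcases Nat.lt_or_ge i a with h2 | h2
      · exact hage i h2
      · have : i = a := by omega
        rw [this, hja]
    · obtain ⟨i0, hi0, hR⟩ := hV
      obtain ⟨r, hr1, hr2, hr3, hr4, hr5⟩ := hsw a j h1 (by omega)
      obtain ⟨c, hc⟩ := hv i0
      have h2 := varSw_sound (V := V) (E := E) hk sw c (hvk i0) hc r hr1 (by omega) (by omega)
        (by rw [hr2, hr3]; exact hr4) (by rw [hr2, hr3]; exact hr5) src dst F P β hR
      rw [hr2, hr3] at h2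
      refine ih (β ∘ Equiv.swap a j) β' (by omega) ?_ hinj' ?_ ?_ h2
      · intro x y hx hy hxy
        have h3 := hinj _ _ (swap_lt (p := a) (q := j) h1 hj hx) (swap_lt (p := a) (q := j) h1 hj hy) hxy
        exact (Equiv.swap a j).injective h3
      · intro i hi
        obtain ⟨y, hy, hyi⟩ := hr i hi
        exact ⟨Equiv.swap a j y, swap_lt h1 hj hy, by simpa using hyi⟩
      · intro i hi
        simp only [Function.comp]
        rcases Nat.lt_or_ge i a with h3 | h3
        · rw [Equiv.swap_apply_of_ne_of_ne (by omega) (by omega)]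
          exact hage i h3
        · have : i = a := by omega
          rw [this, Equiv.swap_apply_left, hja]

end Pool.Agent.TH497.TW
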