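import Pool.Agent.TH497.TW.Sound
import Pool.Agent.TH497.PW.Main

set_option autoImplicit false

/-! # Parts of a graph represented in a table -/

namespace Pool.Agent.TH497.TW

open Finset Pool.Agent.TH497.PW

/-- the data of a successful test of a table state -/
structure TstU (dflt : SwR) (Ev : Env) (tb : Tb) (K : ℕ) (vt vt' : Tb) (s : St) : Prop where
  kK : s.k ≤ K
  z : s.k = 0 → s.S.testBit 0 = true
  f : ∃ c κ, forg dflt Ev tb s.k s.S s.l0 s.l1 s.l2 s.k c κ = true
  d : s.k ≠ K → ∃ c κ, dom dflt Ev tb (s.k + 1) (Nat.land s.S (2 ^ (5 ^ s.k) - 1))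
    (opn (2 ^ s.k) (2 ^ (2 ^ s.k) - 1) s.l0) (opn (2 ^ s.k) (2 ^ (2 ^ s.k) - 1) s.l1)
    (opn (2 ^ s.k) (2 ^ (2 ^ s.k) - 1) s.l2) c κ = true
  v : s.k ≠ K → ∃ j, subSt (vt.get j) s.k s.S s.l0 s.l1 s.l2 = true
  v' : s.k + 1 = K → ∃ j, subSt (vt'.get j) K (Nat.land s.S (2 ^ (5 ^ s.k) - 1))
    (opn (2 ^ s.k) (2 ^ (2 ^ s.k) - 1) s.l0) (opn (2 ^ s.k) (2 ^ (2 ^ s.k) - 1) s.l1)
    (opn (2 ^ s.k) (2 ^ (2 ^ s.k) - 1) s.l2) = true

theorem chkU_tst {dflt : SwR} {Ev : Env} {tb : Tb} {K : ℕ} {vt vt' : Tb} {s : St} {c : ℕ}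
    (hE : Ev.OK K dflt) (h : chkU dflt Ev tb K vt vt' s c = true) :
    TstU dflt Ev tb K vt vt' s := by
  unfold chkU at h
  simp only [fz_eq] at h
  rw [cnd_false_iff, cnd_false_iff] at h
  obtain ⟨h1, h2, h3⟩ := h
  have hk : s.k ≤ K := Nat.le_of_ble_eq_true h1
  have hz : s.k = 0 → s.S.testBit 0 = true := by
    intro h0
    rw [h0] at h2
    exact hit_iff h2
  obtain ⟨⟨c1, h4⟩, _⟩ := forg_sound (V := ℕ) (E := ℕ) hE hk _ le_rfl _ _ h3
  cases hb : Nat.beq s.k K with
  | true =>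
    have hb' := Nat.eq_of_beq_eq_true hb
    exact ⟨hk, hz, ⟨_, _, h3⟩, fun h => absurd hb' h, fun h => absurd hb' h, fun h => by omega⟩
  | false =>
    have hb' : s.k ≠ K := Nat.ne_of_beq_eq_false hb
    rw [hb, cnd_ff] at h4
    obtain ⟨⟨c2, h5⟩, _⟩ := dom_sound (V := ℕ) (E := ℕ) hE (show Nat.succ s.k ≤ K by omega) h4
    rw [cnd_false_iff] at h5
    obtain ⟨h6, h7⟩ := h5
    refine ⟨hk, hz, ⟨_, _, h3⟩, fun _ => ⟨_, _, h4⟩, fun _ => ⟨_, h6⟩, fun h => ?_⟩
    have h8 : Nat.beq (Nat.succ s.k) K = true := by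
      rw [← h]; exact Nat.beq_refl _
    rw [h8, cnd_tt] at h7
    exact ⟨_, h7⟩

theorem subSt_iff {e : St} {k S l0 l1 l2 : ℕ} (h : subSt e k S l0 l1 l2 = true) :
    e.k = k ∧ sub e.S S = true ∧ sub e.l0 l0 = true ∧ sub e.l1 l1 = true ∧
      sub e.l2 l2 = true := by
  unfold subSt at h
  rw [Bool.and_eq_true, Bool.and_eq_true, Bool.and_eq_true, Bool.and_eq_true] at h
  exact ⟨Nat.eq_of_beq_eq_true h.1, h.2⟩

variable {V E : Type} [DecidableEq V] [DecidableEq E]

omit [DecidableEq E] in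
theorem Real.sub {src dst : E → V} {F : Finset E} {P : Finset V} {k : ℕ} {β : ℕ → V}
    {S l0 l1 l2 S' l0' l1' l2' : ℕ} (h : Real src dst F P k β S l0 l1 l2)
    (hS : sub S' S = true) (h0 : sub l0' l0 = true) (h1 : sub l1' l1 = true)
    (h2 : sub l2' l2 = true) : Real src dst F P k β S' l0' l1' l2' :=
  ⟨fun c hc hc2 => h.fl c hc (sub_mem hS hc2), h.c0.sub h0, h.c1.sub h1, h.c2.sub h2⟩

omit [DecidableEq E] in
/-- a further isolated vertex -/
theorem Real.iso {src dst : E → V} {F : Finset E} {P : Finset V} {k : ℕ} {β : ℕ → V}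
    {S l0 l1 l2 : ℕ} (h : Real src dst F P k β S l0 l1 l2) {v : V} (hv : v ∉ P)
    (hβ : ∀ i, i < k → β i ∈ P) (hF : ∀ e ∈ F, src e ∈ P ∧ dst e ∈ P) :
    Real src dst F (insert v P) (k + 1) (Function.update β k v)
      (Nat.land S (2 ^ (5 ^ k) - 1)) (opn (2 ^ k) (2 ^ (2 ^ k) - 1) l0)
      (opn (2 ^ k) (2 ^ (2 ^ k) - 1) l1) (opn (2 ^ k) (2 ^ (2 ^ k) - 1) l2) := by
  refine ⟨?_, h.c0.open hv hβ hF, h.c1.open hv hβ hF, h.c2.open hv hβ hF⟩
  intro c _ hS
  rw [tb_land, Bool.and_eq_true, Nat.testBit_two_pow_sub_one, decide_eq_true_eq] at hS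
  refine (h.fl c hS.2 hS.1).congr fun x => ?_
  have h0 : dg 5 c k = 0 := (lt_pow_iff (by norm_num) c k).mp hS.2 k le_rfl
  have h6 : push (k + 1) (Function.update β k v) c x
      = push k (Function.update β k v) c x := by
    unfold push
    rw [sum_range_succ, h0]
    simp
  rw [h6]
  refine push_congr (fun _ _ => rfl) (fun i hi _ => ?_) x
  rw [Function.update_of_ne hi.ne]

/-- the hypotheses on the tables -/
structure Tab (dflt : SwR) (Ev : Env) (PT : List PosT) (tb : Tb) (vt : ℕ → Tb) (K : ℕ) :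
    Prop where
  hK : 3 ≤ K
  hE : Ev.OK K dflt
  hPT : PT = (List.range K).map (mkT K)
  sw : ∀ p q, p < q → q < K → ∃ r ∈ Ev.sw, r.p = p ∧ r.q = q ∧ r.a.OK 5 K p q ∧ r.b.OK 2 K p q
  vk : ∀ k, k ≤ K → ∀ j, ((vt k).get j).k = k
  vs : ∀ k, k ≤ K → ∀ j, ∃ c, varSw (vt k) ((vt k).get j) Ev.sw c = true
  u : ∀ i, ∃ c, chkU dflt Ev tb K (vt (tb.get i).k) (vt K) (tb.get i) c = true
  jn : ∀ i, ∃ c κ, joinAll dflt Ev PT tb (5 ^ (tb.get i).k) (tb.get i) (vt (tb.get i).k) c κ
    = true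
  z : ∃ i, (tb.get i).k = 0 ∧ (tb.get i).l0 = 0 ∧ (tb.get i).l1 = 0 ∧ (tb.get i).l2 = 0
  e : ∃ i, (tb.get i).k = 2 ∧ sub (tb.get i).S 0x222200 = true ∧ (tb.get i).l0 = 0 ∧
    sub (tb.get i).l1 6 = true ∧ sub (tb.get i).l2 6 = true

theorem Tab.tst {dflt : SwR} {Ev : Env} {PT : List PosT} {tb : Tb} {vt : ℕ → Tb} {K : ℕ}
    (hT : Tab dflt Ev PT tb vt K) (i : ℕ) :
    TstU dflt Ev tb K (vt (tb.get i).k) (vt K) (tb.get i) := by
  obtain ⟨c, h⟩ := hT.u i
  exact chkU_tst hT.hE h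

/-- every edge (not a loop) at `x` is in `F` -/
def CF (src dst : E → V) (F : Finset E) (x : V) : Prop :=
  ∀ e, src e ≠ dst e → (src e = x ∨ dst e = x) → e ∈ F

/-- a part of the graph with boundary `Z` -/
structure Part (src dst : E → V) (F : Finset E) (P Z : Finset V) : Prop where
  zp : Z ⊆ P
  nis : ∀ x ∈ P, Nis src dst x
  cpt : ∀ x ∈ P, x ∉ Z → CF src dst F x
  ends : ∀ e ∈ F, src e ∈ P ∧ dst e ∈ P

omit [DecidableEq E] in
theorem cut_contraF [Fintype E] {src dst : E → V} (h3 : H3 src dst) {F : Finset E}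
    {Y : Finset V}
    (hY : ∀ x ∈ Y, CF src dst F x) (hc : cross src dst F Y ≤ 2)
    {a b : V} (ha : a ∈ Y) (hna : Nis src dst a) (hb : b ∉ Y) (hnb : Nis src dst b) :
    False := by
  have h1 : (univ.filter (fun e => ¬ (src e ∈ Y ↔ dst e ∈ Y))).card
      ≤ cross src dst F Y := by
    unfold cross
    apply card_le_card
    intro e he
    rw [mem_filter] at he ⊢
    refine ⟨?_, he.2⟩
    have hne : src e ≠ dst e := by
      intro h; apply he.2; rw [h]
    by_cases h : src e ∈ Y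
    · exact hY _ h e hne (Or.inl rfl)
    · have h' : dst e ∈ Y := by
        by_contra h'
        exact he.2 ⟨fun hh => absurd hh h, fun hh => absurd hh h'⟩
      exact hY _ h' e hne (Or.inr rfl)
  rcases h3 Y with h | h | h
  · omega
  · obtain ⟨e, he, h2⟩ := hnb
    have := h e he
    rcases h2 with h2 | h2
    · exact hb (h2 ▸ this.1)
    · exact hb (h2 ▸ this.2)
  · obtain ⟨e, he, h2⟩ := hna
    have := h e he
    rcases h2 with h2 | h2
    · exact this.1 (h2 ▸ ha)
    · exact this.2 (h2 ▸ ha)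

/-- labelling of the boundary -/
structure LabF (Z : Finset V) (k : ℕ) (β : ℕ → V) : Prop where
  inj : ∀ i j, i < k → j < k → β i = β j → i = j
  rg : ∀ x, x ∈ Z ↔ ∃ i, i < k ∧ β i = x

omit [DecidableEq V] in
theorem LabF.card {Z : Finset V} {k : ℕ} {β : ℕ → V} (h : LabF Z k β) : Z.card = k := by
  classical
  have h1 : Z = (range k).image β := by
    ext x
    rw [h.rg, mem_image]
    simp
  rw [h1, card_image_of_injOn, card_range]
  intro a ha b hb hab
  simp only [coe_range, Set.mem_Iio] at ha hb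
  exact h.inj a b ha hb hab

theorem LabF.insert {Z : Finset V} {k : ℕ} {β : ℕ → V} (h : LabF Z k β) {v : V} (hv : v ∉ Z) :
    LabF (insert v Z) (k + 1) (Function.update β k v) := by
  have hβv : ∀ i, i < k → β i ≠ v := fun i hi h1 => hv ((h.rg v).mpr ⟨i, hi, h1⟩)
  refine ⟨?_, ?_⟩
  · intro a b ha hb hab
    by_cases h1 : a = k <;> by_cases h2 : b = k
    · rw [h1, h2]
    · rw [h1, Function.update_self, Function.update_of_ne h2] at hab
      exact absurd hab.symm (hβv b (by omega))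
    · rw [h2, Function.update_self, Function.update_of_ne h1] at hab
      exact absurd hab (hβv a (by omega))
    · rw [Function.update_of_ne h2, Function.update_of_ne h1] at hab
      exact h.inj a b (by omega) (by omega) hab
  · intro x
    rw [mem_insert, h.rg]
    constructor
    · rintro (rfl | ⟨i, hi, rfl⟩)
      · exact ⟨k, by omega, Function.update_self ..⟩
      · exact ⟨i, by omega, Function.update_of_ne (by omega) ..⟩
    · rintro ⟨i, hi, rfl⟩
      by_cases h1 : i = k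
      · left; rw [h1, Function.update_self]
      · right
        exact ⟨i, by omega, (Function.update_of_ne h1 ..).symm⟩

theorem no_hitF [Fintype E] {src dst : E → V} (h3 : H3 src dst) {F : Finset E}
    {P Z : Finset V} {k : ℕ} {β : ℕ → V} (hp : Part src dst F P Z)
    (hl : LabF Z k β) {L j : ℕ} (hk : 2 ≤ k)
    (hC : Cl src dst F P k β 2 L) (hj : j < k) (hcj : CF src dst F (β j))
    (h : L.testBit (2 ^ j) = true ∨ L.testBit (2 ^ k - 1 - 2 ^ j) = true) : False := by
  have hmem : ∀ i, i < k → β i ∈ P := fun i hi => hp.zp ((hl.rg _).mpr ⟨i, hi, rfl⟩)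
  have hcpt : ∀ x ∈ P, (∀ i, i < k → β i ≠ x) → CF src dst F x := by
    intro x hx h1
    refine hp.cpt x hx (fun h2 => ?_)
    obtain ⟨i, hi, h4⟩ := (hl.rg x).mp h2
    exact h1 i hi h4
  obtain ⟨i0, hi0, hne⟩ : ∃ i0, i0 < k ∧ i0 ≠ j := by
    by_cases h0 : j = 0
    · exact ⟨1, by omega, by omega⟩
    · exact ⟨0, by omega, fun h => h0 h.symm⟩
  rcases h with h | h
  · obtain ⟨Y, hY, h1, h2⟩ := hC _ (Nat.pow_lt_pow_right (by norm_num) hj) h
    have hd : ∀ i, i < k → (dg 2 (2 ^ j) i = 1 ↔ i = j) := fun i _ => dg_single i hj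
    refine cut_contraF h3 (Y := Y) ?_ h2 ((h1 j hj).mpr ((hd j hj).mpr rfl))
      (hp.nis _ (hmem j hj)) (b := β i0) ?_ (hp.nis _ (hmem i0 hi0))
    · intro x hx
      by_cases h : ∀ i, i < k → β i ≠ x
      · exact hcpt x (hY hx) h
      · push Not at h
        obtain ⟨i, hi, rfl⟩ := h
        have := (hd i hi).mp ((h1 i hi).mp hx)
        rw [this]; exact hcj
    · intro h
      exact hne ((hd i0 hi0).mp ((h1 i0 hi0).mp h))
  · obtain ⟨Y, hY, h1, h2⟩ := hC _ cosingle_lt h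
    have hd : ∀ i, i < k → (dg 2 (2 ^ k - 1 - 2 ^ j) i = 1 ↔ i ≠ j) :=
      fun i hi => dg_cosingle hi hj
    refine cut_contraF h3 (F := F) (Y := P \ Y) ?_ ?_ (a := β j) ?_ (hp.nis _ (hmem j hj))
      (b := β i0) ?_ (hp.nis _ (hmem i0 hi0))
    · intro x hx
      rw [mem_sdiff] at hx
      by_cases h : ∀ i, i < k → β i ≠ x
      · exact hcpt x hx.1 h
      · push Not at h
        obtain ⟨i, hi, rfl⟩ := h
        have h4 : i = j := by
          by_contra h5
          exact hx.2 ((h1 i hi).mpr ((hd i hi).mpr h5))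
        rw [h4]; exact hcj
    · rw [cross_congr (Y' := Y)]
      · exact h2
      · intro e he
        have := hp.ends e he
        rw [mem_sdiff, mem_sdiff]
        simp only [this.1, this.2, true_and]
        tauto
    · rw [mem_sdiff]
      exact ⟨hmem j hj, fun h => ((hd j hj).mp ((h1 j hj).mp h)) rfl⟩
    · rw [mem_sdiff, not_and, not_not]
      intro _
      exact (h1 i0 hi0).mpr ((hd i0 hi0).mpr hne)

/-- the part is represented by a state of the table -/
structure GoodF (tb : Tb) (src dst : E → V) (F : Finset E) (P Z : Finset V) : Prop where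
  part : Part src dst F P Z
  st : ∃ (i k : ℕ) (β : ℕ → V), (tb.get i).k = k ∧
    Real src dst F P k β (tb.get i).S (tb.get i).l0 (tb.get i).l1 (tb.get i).l2 ∧ LabF Z k β

/-- the part is represented by a variant -/
structure GoodV (vt : ℕ → Tb) (src dst : E → V) (F : Finset E) (P Z : Finset V) : Prop where
  part : Part src dst F P Z
  st : ∃ (k : ℕ) (β : ℕ → V), InV (vt k) src dst F P k β ∧ LabF Z k β

omit [DecidableEq E] in
theorem InT.goodF {tb : Tb} {src dst : E → V} {F : Finset E} {P Z : Finset V} {k : ℕ}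
    {β : ℕ → V} (hp : Part src dst F P Z)
    (h : InT tb src dst F P k β) (hl : LabF Z k β) : GoodF tb src dst F P Z := by
  obtain ⟨i, σ, h1, h2, h3, h4⟩ := h
  refine ⟨hp, i, k, β ∘ σ, h1, h4, ?_, ?_⟩
  · intro a b ha hb hab
    exact σ.injective (hl.inj _ _ (h2 a ha) (h2 b hb) hab)
  · intro x
    rw [hl.rg]
    constructor
    · rintro ⟨a, ha, rfl⟩
      exact ⟨σ.symm a, h3 a ha, by simp⟩
    · rintro ⟨a, ha, rfl⟩
      exact ⟨σ a, h2 a ha, rfl⟩

omit [DecidableEq V] [DecidableEq E] in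
theorem Part.insert [DecidableEq V] {src dst : E → V} {F : Finset E} {P Z : Finset V}
    (hp : Part src dst F P Z) {v : V} (hn : Nis src dst v) :
    Part src dst F (insert v P) (insert v Z) := by
  refine ⟨insert_subset_insert _ hp.zp, ?_, ?_, ?_⟩
  · intro x hx
    rcases mem_insert.mp hx with h | h
    · rw [h]; exact hn
    · exact hp.nis x h
  · intro x hx hx2
    rw [mem_insert, not_or] at hx2
    exact hp.cpt x ((mem_insert.mp hx).resolve_left hx2.1) hx2.2
  · intro e he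
    have := hp.ends e he
    exact ⟨mem_insert_of_mem this.1, mem_insert_of_mem this.2⟩

section

variable {dflt : SwR} {Ev : Env} {PT : List PosT} {tb : Tb} {vt : ℕ → Tb} {K : ℕ}

omit [DecidableEq E] in
theorem GoodF.card_le (hT : Tab dflt Ev PT tb vt K) {src dst : E → V} {F : Finset E}
    {P Z : Finset V} (h : GoodF tb src dst F P Z) : Z.card ≤ K := by
  obtain ⟨i, k, β, hk, _, hl⟩ := h.st
  rw [hl.card, ← hk]
  exact (hT.tst i).kK

omit [DecidableEq E] in
/-- a new vertex -/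
theorem GoodF.iso (hT : Tab dflt Ev PT tb vt K) {src dst : E → V} {F : Finset E}
    {P Z : Finset V} (h : GoodF tb src dst F P Z) {v : V} (hv : v ∉ P) (hn : Nis src dst v)
    (hZ : Z.card < K) : GoodF tb src dst F (insert v P) (insert v Z) := by
  obtain ⟨i, k, β, hk, hR, hl⟩ := h.st
  have hc := hl.card
  obtain ⟨c, κ, hd⟩ := (hT.tst i).d (by omega)
  obtain ⟨_, h1⟩ := dom_sound (V := V) (E := E) hT.hE (by omega) hd
  have hmem : ∀ i, i < k → β i ∈ P := fun i hi => h.part.zp ((hl.rg _).mpr ⟨i, hi, rfl⟩)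
  have h2 := Real.iso hR hv hmem h.part.ends
  rw [hk] at h1
  exact InT.goodF (h.part.insert hn) (h1 _ _ _ _ _ h2)
    (hl.insert (fun h3 => hv (h.part.zp h3)))

omit [DecidableEq E] in
theorem GoodF.toV (hT : Tab dflt Ev PT tb vt K) {src dst : E → V} {F : Finset E}
    {P Z : Finset V} (h : GoodF tb src dst F P Z) (hZ : Z.card < K) :
    GoodV vt src dst F P Z := by
  obtain ⟨i, k, β, hk, hR, hl⟩ := h.st
  have hc := hl.card
  obtain ⟨j, hj⟩ := (hT.tst i).v (by omega)
  obtain ⟨h1, h2, h3, h4, h5⟩ := subSt_iff hj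
  rw [hk] at h1 h2 h3 h4 h5
  exact ⟨h.part, k, β, ⟨j, h1, Real.sub hR h2 h3 h4 h5⟩, hl⟩

omit [DecidableEq E] in
theorem GoodF.toV' (hT : Tab dflt Ev PT tb vt K) {src dst : E → V} {F : Finset E}
    {P Z : Finset V} (h : GoodF tb src dst F P Z) {v : V} (hv : v ∉ P) (hn : Nis src dst v)
    (hZ : Z.card + 1 = K) : GoodV vt src dst F (insert v P) (insert v Z) := by
  obtain ⟨i, k, β, hk, hR, hl⟩ := h.st
  have hc := hl.card
  obtain ⟨j, hj⟩ := (hT.tst i).v' (by omega)
  obtain ⟨h1, h2, h3, h4, h5⟩ := subSt_iff hj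
  rw [hk] at h2 h3 h4 h5
  have hmem : ∀ i, i < k → β i ∈ P := fun i hi => h.part.zp ((hl.rg _).mpr ⟨i, hi, rfl⟩)
  have h6 := Real.iso hR hv hmem h.part.ends
  have hK : k + 1 = K := by omega
  refine ⟨h.part.insert hn, k + 1, Function.update β k v, ⟨j, ?_, ?_⟩,
    hl.insert (fun h3 => hv (h.part.zp h3))⟩
  · rw [hK]; exact h1
  · rw [hK] at h6 ⊢
    exact Real.sub h6 h2 h3 h4 h5

/-- a boundary vertex is complete -/
theorem GoodF.forget [Fintype E] (hT : Tab dflt Ev PT tb vt K) {src dst : E → V}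
    (h3 : H3 src dst)
    {F : Finset E} {P Z : Finset V} (h : GoodF tb src dst F P Z) {x : V} (hx : x ∈ Z)
    (hxc : CF src dst F x) : GoodF tb src dst F P (Z.erase x) := by
  obtain ⟨i, k, β, hk, hR, hl⟩ := h.st
  have hkK : k ≤ K := hk ▸ (hT.tst i).kK
  obtain ⟨j, hj, rfl⟩ := (hl.rg x).mp hx
  obtain ⟨c, κ, hf⟩ := (hT.tst i).f
  rw [hk] at hf
  obtain ⟨_, h1⟩ := forg_sound (V := V) (E := E) hT.hE hkK k le_rfl c κ hf
  have hp' : Part src dst F P (Z.erase (β j)) := by
    refine ⟨(erase_subset _ _).trans h.part.zp, h.part.nis, ?_, h.part.ends⟩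
    intro y hy hyZ
    by_cases hyx : y = β j
    · rw [hyx]; exact hxc
    · exact h.part.cpt y hy (fun h => hyZ (mem_erase.mpr ⟨hyx, h⟩))
  rcases h1 j hj with ⟨h2, h4⟩ | h2
  · exact (no_hitF h3 h.part hl h2 hR.c2 hj hxc h4).elim
  · have h4 := h2 src dst _ P β hR
    refine InT.goodF hp' h4 ⟨?_, ?_⟩
    · intro a b ha hb hab
      have h5 := hl.inj _ _ (swap_lt' (p := j) (q := k - 1) (k := k) (by omega) (by omega)
        (by omega : a < k)) (swap_lt' (p := j) (q := k - 1) (k := k) (by omega) (by omega)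
        (by omega : b < k)) hab
      exact (Equiv.swap j (k - 1)).injective h5
    · intro y
      rw [mem_erase, hl.rg]
      constructor
      · rintro ⟨hne, a, ha, rfl⟩
        have haj : a ≠ j := fun h => hne (h ▸ rfl)
        refine ⟨Equiv.swap j (k - 1) a, ?_, by simp⟩
        rw [Equiv.swap_apply_def]
        split_ifs <;> omega
      · rintro ⟨a, ha, rfl⟩
        have h6 : Equiv.swap j (k - 1) a ≠ j := by
          rw [Equiv.swap_apply_def]
          split_ifs <;> omega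
        have h7 : Equiv.swap j (k - 1) a < k := by
          rw [Equiv.swap_apply_def]
          split_ifs <;> omega
        exact ⟨fun h => h6 (hl.inj _ _ h7 hj h), _, h7, rfl⟩

/-- two parts with the same boundary are joined -/
theorem GoodF.join (hT : Tab dflt Ev PT tb vt K) {src dst : E → V} {F1 F2 : Finset E}
    {P1 P2 Z : Finset V} (h1 : GoodF tb src dst F1 P1 Z) (h2 : GoodV vt src dst F2 P2 Z)
    (hd : Disjoint F1 F2) (hP : ∀ x, x ∈ P1 → x ∈ P2 → x ∈ Z) :
    GoodF tb src dst (F1 ∪ F2) (P1 ∪ P2) Z := by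
  obtain ⟨i, k, β, hk, hR, hl⟩ := h1.st
  obtain ⟨k', β', hV, hl'⟩ := h2.st
  have hkk : k' = k := by rw [← hl.card, ← hl'.card]
  subst hkk
  have hkK : k' ≤ K := hk ▸ (hT.tst i).kK
  have hp : Part src dst (F1 ∪ F2) (P1 ∪ P2) Z := by
    refine ⟨h1.part.zp.trans subset_union_left, ?_, ?_, ?_⟩
    · intro x hx
      rcases mem_union.mp hx with h | h
      · exact h1.part.nis x h
      · exact h2.part.nis x h
    · intro x hx hxZ e he he2
      rcases mem_union.mp hx with h | h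
      · exact mem_union_left _ (h1.part.cpt x h hxZ e he he2)
      · exact mem_union_right _ (h2.part.cpt x h hxZ e he he2)
    · intro e he
      rcases mem_union.mp he with h | h
      · have := h1.part.ends e h
        exact ⟨mem_union_left _ this.1, mem_union_left _ this.2⟩
      · have := h2.part.ends e h
        exact ⟨mem_union_right _ this.1, mem_union_right _ this.2⟩
  -- relabel the second part
  have hV' : InV (vt k') src dst F2 P2 k' β := by
    refine InV.permute hkK hT.sw (hT.vk k' hkK) (hT.vs k' hkK) k' β' β le_rfl hl'.inj hl.inj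
      ?_ (fun i hi => by omega) hV
    intro i hi
    exact (hl'.rg _).mp ((hl.rg _).mpr ⟨i, hi, rfl⟩)
  obtain ⟨j, hj, hRj⟩ := hV'
  obtain ⟨c, κ, hJ⟩ := hT.jn i
  obtain ⟨_, h4⟩ := joinAll_sound hT.hE hT.hPT (by omega : (tb.get i).k ≤ K) _ c κ hJ
  obtain ⟨c', κ', h5⟩ := h4 j
  obtain ⟨_, _, h6⟩ := joinOne_sound (V := V) (E := E) hT.hE hT.hPT
    (by omega : (tb.get i).k ≤ K) h5
  rw [hk] at h6
  refine InT.goodF hp (h6 src dst F1 F2 P1 P2 β hR hRj hd h1.part.ends h2.part.ends ?_) hl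
  intro x hx1 hx2
  exact (hl.rg x).mp (hP x hx1 hx2)

end

end Pool.Agent.TH497.TW
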