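import Pool.Agent.TH497.TW.Tab

set_option autoImplicit false

/-! # Assembling a graph along a tree decomposition -/

namespace Pool.Agent.TH497.TW

open Finset Pool.Agent.TH497.PW

variable {V E : Type} [DecidableEq V] [DecidableEq E]
variable {dflt : SwR} {Ev : Env} {PT : List PosT} {tb : Tb} {vt : ℕ → Tb} {K : ℕ}

omit [DecidableEq E] in
/-- extension to a larger boundary, as a variant -/
theorem GoodF.ext (hT : Tab dflt Ev PT tb vt K) {src dst : E → V} {F : Finset E}
    {B : Finset V} (hB : B.card ≤ K) (hn : ∀ x ∈ B, Nis src dst x) (m : ℕ) :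
    ∀ (P Z : Finset V), (B \ Z).card = m → GoodF tb src dst F P Z → Z.card < K → Z ⊆ B →
      (∀ x ∈ B, x ∈ P → x ∈ Z) → GoodV vt src dst F (P ∪ B) B := by
  induction m with
  | zero =>
    intro P Z hm hG hZ hZB _
    rw [card_eq_zero, sdiff_eq_empty_iff_subset] at hm
    have h1 : Z = B := subset_antisymm hZB hm
    have h2 : P ∪ B = P := union_eq_left.mpr (h1 ▸ hG.part.zp)
    rw [h2, ← h1]
    exact hG.toV hT hZ
  | succ m ih =>
    intro P Z hm hG hZ hZB hBP
    have hne : (B \ Z).Nonempty := by rw [← card_pos, hm]; omega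
    obtain ⟨v, hv⟩ := hne
    rw [mem_sdiff] at hv
    have hvP : v ∉ P := fun h => hv.2 (hBP v hv.1 h)
    have hsub : insert v Z ⊆ B := insert_subset hv.1 hZB
    by_cases hK : Z.card + 1 = K
    · have h1 : insert v Z = B := by
        apply eq_of_subset_of_card_le hsub
        rw [card_insert_of_notMem hv.2]
        omega
      have h2 := hG.toV' hT hvP (hn v hv.1) hK
      have h3 : P ∪ B = insert v P := by
        rw [← h1, union_insert, union_eq_left.mpr hG.part.zp]
      rw [h3, ← h1]
      exact h2
    · have h2 := hG.iso hT hvP (hn v hv.1) hZ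
      have h3 := ih (insert v P) (insert v Z) ?_ h2 ?_ hsub ?_
      · have h4 : insert v P ∪ B = P ∪ B := by
          rw [insert_union, insert_eq_self.mpr (mem_union_right _ hv.1)]
        rw [h4] at h3
        exact h3
      · have h4 : B \ insert v Z = (B \ Z).erase v := by
          ext x
          simp only [mem_sdiff, mem_insert, not_or, mem_erase]
          tauto
        rw [h4, card_erase_of_mem (mem_sdiff.mpr hv), hm]
        rfl
      · rw [card_insert_of_notMem hv.2]
        omega
      · intro x hx hx2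
        rcases mem_insert.mp hx2 with h | h
        · rw [h]; exact mem_insert_self _ _
        · exact mem_insert_of_mem (hBP x hx h)

/-- a part with a small boundary is attached -/
theorem GoodF.attach (hT : Tab dflt Ev PT tb vt K) {src dst : E → V} {F1 F2 : Finset E}
    {P1 P2 B Z : Finset V} (h1 : GoodF tb src dst F1 P1 B) (h2 : GoodF tb src dst F2 P2 Z)
    (hZ : Z.card < K) (hZB : Z ⊆ B) (hB : ∀ x ∈ B, x ∈ P2 → x ∈ Z) (hd : Disjoint F1 F2)
    (hP : ∀ x, x ∈ P1 → x ∈ P2 → x ∈ B) :
    GoodF tb src dst (F1 ∪ F2) (P1 ∪ P2) B := by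
  have h3 := h2.ext hT (h1.card_le hT) (fun x hx => h1.part.nis x (h1.part.zp hx)) _ P2 Z rfl
    hZ hZB hB
  have h4 := h1.join hT h3 hd (fun x hx1 hx2 => by
    rcases mem_union.mp hx2 with h | h
    · exact hP x hx1 h
    · exact h)
  have h5 : P1 ∪ (P2 ∪ B) = P1 ∪ P2 := by
    ext x
    simp only [mem_union]
    constructor
    · rintro (h | h | h)
      · exact Or.inl h
      · exact Or.inr h
      · exact Or.inl (h1.part.zp h)
    · rintro (h | h)
      · exact Or.inl h
      · exact Or.inr (Or.inl h)
  rw [h5] at h4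
  exact h4

omit [DecidableEq E] in
/-- a bag without edges -/
theorem GoodF.bag (hT : Tab dflt Ev PT tb vt K) (src dst : E → V) (v0 : V) (B : Finset V) :
    B.card ≤ K → (∀ x ∈ B, Nis src dst x) → GoodF tb src dst ∅ B B := by
  induction B using Finset.induction_on with
  | empty =>
    intro _ _
    obtain ⟨i, h0, h1, h2, h3⟩ := hT.z
    refine ⟨⟨subset_rfl, by simp, by simp, by simp⟩, i, 0, fun _ => v0, h0, ?_, ?_⟩
    · rw [h1, h2, h3]
      refine ⟨?_, ?_, ?_, ?_⟩
      · intro c _ _
        exact ⟨fun _ => 1, by simp, fun x => by simp [push]⟩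
      · intro J _ h; simp at h
      · intro J _ h; simp at h
      · intro J _ h; simp at h
    · exact ⟨fun i j hi => by omega, fun x => by simp⟩
  | insert a s ha ih =>
    intro hc hn
    rw [card_insert_of_notMem ha] at hc
    exact (ih (by omega) (fun x hx => hn x (mem_insert_of_mem hx))).iso hT ha
      (hn a (mem_insert_self _ _)) (by omega)

omit [DecidableEq E] in
/-- one edge -/
theorem GoodF.edge (hT : Tab dflt Ev PT tb vt K) {src dst : E → V} {e : E}
    (he : src e ≠ dst e) :
    GoodF tb src dst {e} {src e, dst e} {src e, dst e} := by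
  obtain ⟨i, hk, hS, h0, h1, h2⟩ := hT.e
  have hp : Part src dst {e} {src e, dst e} {src e, dst e} := by
    refine ⟨subset_rfl, ?_, ?_, ?_⟩
    · intro x hx
      simp only [mem_insert, mem_singleton] at hx
      rcases hx with rfl | rfl
      · exact ⟨e, he, Or.inl rfl⟩
      · exact ⟨e, he, Or.inr rfl⟩
    · intro x hx hx2; exact absurd hx hx2
    · intro e' he'
      rw [mem_singleton] at he'
      subst he'
      simp
  obtain ⟨β, hβ0, hβ1⟩ : ∃ β : ℕ → V, β 0 = src e ∧ β 1 = dst e :=
    ⟨fun i => if i = 0 then src e else dst e, by simp, by simp⟩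
  refine ⟨hp, i, 2, β, hk, ?_, ?_, ?_⟩
  · have hcl : ∀ l L, 1 ≤ l → sub L 6 = true → Cl src dst {e} {src e, dst e} 2 β l L := by
      intro l L hl hs J hJ hLJ
      have h6 := sub_mem hs hLJ
      have hJ2 : J = 1 ∨ J = 2 := by
        have : ∀ J, J < 2 ^ 2 → (6 : ℕ).testBit J = true → J = 1 ∨ J = 2 := by decide
        exact this J hJ h6
      have hcr : ∀ Y : Finset V, cross src dst {e} Y ≤ l := by
        intro Y
        unfold cross
        exact (card_filter_le _ _).trans (by simpa using hl)
      rcases hJ2 with rfl | rfl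
      · refine ⟨{src e}, by simp, fun i hi => ?_, hcr _⟩
        rcases (by omega : i = 0 ∨ i = 1) with rfl | rfl
        · rw [hβ0]; simp [dg]
        · rw [hβ1]
          simp only [mem_singleton]
          constructor
          · intro h; exact absurd h.symm he
          · intro h; exact absurd h (by decide)
      · refine ⟨{dst e}, by simp, fun i hi => ?_, hcr _⟩
        rcases (by omega : i = 0 ∨ i = 1) with rfl | rfl
        · rw [hβ0]
          simp only [mem_singleton]
          constructor
          · intro h; exact absurd h he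
          · intro h; exact absurd h (by decide)
        · rw [hβ1]; simp [dg]
    refine ⟨?_, ?_, hcl 1 _ le_rfl h1, hcl 2 _ (by norm_num) h2⟩
    · intro c hc hcS
      have h6 := sub_mem hS hcS
      have key : ∀ a b : ℕ, dg 5 c 0 = a → dg 5 c 1 = b → ((a : ℕ) : ZMod 5) ≠ 0 →
          ((b : ℕ) : ZMod 5) = - ((a : ℕ) : ZMod 5) → Ext src dst {e} (push 2 β c) := by
        intro a b ha hb ha0 hab
        refine ⟨fun _ => ((a : ℕ) : ZMod 5), fun _ _ => ha0, fun x => ?_⟩
        unfold push ic
        rw [sum_singleton, sum_range_succ, sum_range_succ, sum_range_zero, ha, hb, hab, hβ0, hβ1]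
        by_cases hx1 : src e = x <;> by_cases hx2 : dst e = x <;> simp [hx1, hx2]
      have hc4 : c = 9 ∨ c = 13 ∨ c = 17 ∨ c = 21 := by
        have : ∀ c, c < 5 ^ 2 → (0x222200 : ℕ).testBit c = true →
            c = 9 ∨ c = 13 ∨ c = 17 ∨ c = 21 := by decide
        exact this c hc h6
      rcases hc4 with rfl | rfl | rfl | rfl
      · exact key 4 1 (by decide) (by decide) (by decide) (by decide)
      · exact key 3 2 (by decide) (by decide) (by decide) (by decide)
      · exact key 2 3 (by decide) (by decide) (by decide) (by decide)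
      · exact key 1 4 (by decide) (by decide) (by decide) (by decide)
    · rw [h0]
      intro J _ h
      simp at h
  · intro a b ha hb hab
    rcases (by omega : a = 0 ∨ a = 1) with rfl | rfl <;>
      rcases (by omega : b = 0 ∨ b = 1) with rfl | rfl
    · rfl
    · rw [hβ0, hβ1] at hab; exact absurd hab he
    · rw [hβ0, hβ1] at hab; exact absurd hab.symm he
    · rfl
  · intro x
    simp only [mem_insert, mem_singleton]
    constructor
    · rintro (rfl | rfl)
      · exact ⟨0, by norm_num, hβ0⟩
      · exact ⟨1, by norm_num, hβ1⟩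
    · rintro ⟨a, ha, rfl⟩
      rcases (by omega : a = 0 ∨ a = 1) with rfl | rfl
      · left; exact hβ0
      · right; exact hβ1

/-- a bag with some edges inside it -/
theorem GoodF.bagE (hT : Tab dflt Ev PT tb vt K) (src dst : E → V) (v0 : V) {B : Finset V}
    (hB : B.card ≤ K) (hn : ∀ x ∈ B, Nis src dst x) (F : Finset E) :
    (∀ e ∈ F, src e ≠ dst e ∧ src e ∈ B ∧ dst e ∈ B) → GoodF tb src dst F B B := by
  induction F using Finset.induction_on with
  | empty => intro _; exact GoodF.bag hT src dst v0 B hB hn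
  | insert e F he ih =>
    intro h
    obtain ⟨h1, h2, h3⟩ := h e (mem_insert_self _ _)
    have h4 := ih (fun e' he' => h e' (mem_insert_of_mem he'))
    have hsub : ({src e, dst e} : Finset V) ⊆ B := by
      intro x hx
      simp only [mem_insert, mem_singleton] at hx
      rcases hx with rfl | rfl
      · exact h2
      · exact h3
    have h5 := h4.attach hT (GoodF.edge hT h1) (by
        have := hT.hK
        rw [card_pair h1]; omega) hsub (fun x _ hx => hx)
      (by simpa using he) (fun x hx _ => hx)
    rw [union_eq_left.mpr hsub] at h5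
    have h6 : insert e F = F ∪ {e} := by
      rw [union_comm]; rfl
    rw [h6]
    exact h5

/-- forgetting several vertices -/
theorem GoodF.forgets [Fintype E] (hT : Tab dflt Ev PT tb vt K) {src dst : E → V}
    (h3 : H3 src dst) {F : Finset E} {P : Finset V} (D : Finset V) :
    ∀ Z : Finset V, GoodF tb src dst F P Z → D ⊆ Z → (∀ x ∈ D, CF src dst F x) →
      GoodF tb src dst F P (Z \ D) := by
  induction D using Finset.induction_on with
  | empty => intro Z hG _ _; simpa using hG
  | insert x D hx ih =>
    intro Z hG hD hc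
    have h1 := ih Z hG ((subset_insert _ _).trans hD)
      (fun y hy => hc y (mem_insert_of_mem hy))
    have h2 := h1.forget hT h3 (x := x) (mem_sdiff.mpr ⟨hD (mem_insert_self _ _), hx⟩)
      (hc x (mem_insert_self _ _))
    have h4 : Z \ insert x D = (Z \ D).erase x := by
      ext y
      simp only [mem_sdiff, mem_insert, not_or, mem_erase]
      tauto
    rw [h4]
    exact h2

/-- a rooted tree decomposition of the edges that are not loops -/
structure TD (src dst : E → V) (w : ℕ) (N : Finset ℕ) (par : ℕ → ℕ) (B : ℕ → Finset V) :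
    Prop where
  root : 0 ∈ N
  up : ∀ i ∈ N, i ≠ 0 → par i ∈ N ∧ par i < i
  edge : ∀ e, src e ≠ dst e → ∃ i ∈ N, src e ∈ B i ∧ dst e ∈ B i
  conn : ∀ i ∈ N, ∀ j ∈ N, ∀ v, j < i → v ∈ B i → v ∈ B j → v ∈ B (par i)
  card : ∀ i ∈ N, (B i).card ≤ w

omit [DecidableEq V] [DecidableEq E] in
/-- a bag contained in its parent is removed -/
theorem TD.minimal {src dst : E → V} {w : ℕ} {B : ℕ → Finset V} (m : ℕ) :
    ∀ (N : Finset ℕ) (par : ℕ → ℕ), N.card = m → TD src dst w N par B →
    ∃ (N' : Finset ℕ) (par' : ℕ → ℕ), TD src dst w N' par' B ∧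
      ∀ i ∈ N', i ≠ 0 → ¬ B i ⊆ B (par' i) := by
  classical
  induction m using Nat.strong_induction_on with
  | _ m ih =>
    intro N par hm hD
    by_cases h : ∀ i ∈ N, i ≠ 0 → ¬ B i ⊆ B (par i)
    · exact ⟨N, par, hD, h⟩
    · push Not at h
      obtain ⟨a, ha, ha0, hs⟩ := h
      obtain ⟨hpa, hpa2⟩ := hD.up a ha ha0
      refine ih (N.erase a).card (by rw [← hm]; exact card_erase_lt_of_mem ha) (N.erase a)
        (fun i => if par i = a then par a else par i) rfl ⟨?_, ?_, ?_, ?_, ?_⟩
      · exact mem_erase.mpr ⟨Ne.symm ha0, hD.root⟩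
      · intro i hi hi0
        rw [mem_erase] at hi
        obtain ⟨h1, h2⟩ := hD.up i hi.2 hi0
        change (if par i = a then par a else par i) ∈ N.erase a ∧
          (if par i = a then par a else par i) < i
        by_cases h3 : par i = a
        · rw [if_pos h3]
          exact ⟨mem_erase.mpr ⟨by omega, hpa⟩, by omega⟩
        · rw [if_neg h3]
          exact ⟨mem_erase.mpr ⟨h3, h1⟩, h2⟩
      · intro e he
        obtain ⟨i, hi, h1, h2⟩ := hD.edge e he
        by_cases hia : i = a
        · subst hia
          exact ⟨par i, mem_erase.mpr ⟨by omega, hpa⟩, hs h1, hs h2⟩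
        · exact ⟨i, mem_erase.mpr ⟨hia, hi⟩, h1, h2⟩
      · intro i hi j hj v hji h1 h2
        rw [mem_erase] at hi hj
        have h4 := hD.conn i hi.2 j hj.2 v hji h1 h2
        change v ∈ B (if par i = a then par a else par i)
        by_cases h3 : par i = a
        · rw [if_pos h3]
          rw [h3] at h4
          exact hs h4
        · rw [if_neg h3]; exact h4
      · intro i hi
        exact hD.card i (mem_of_mem_erase hi)

/-- the state of the elimination of the nodes in decreasing order -/
structure Stage [Fintype E] (tb : Tb) (src dst : E → V) (N : Finset ℕ) (B : ℕ → Finset V)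
    (t : E → ℕ) (m : ℕ) (own : ℕ → ℕ) : Prop where
  lt : ∀ i ∈ N, own i ∈ N ∧ own i < m
  fix : ∀ i ∈ N, i < m → own i = i
  sep : ∀ i ∈ N, ∀ j ∈ N, ∀ x, x ∈ B i → x ∈ B j → own i ≠ own j → x ∈ B (own i)
  good : ∀ j ∈ N, j < m → GoodF tb src dst
    (univ.filter (fun e => src e ≠ dst e ∧ own (t e) = j))
    ((N.filter (fun i => own i = j)).biUnion B) (B j)

theorem Stage.step [Fintype E] (hT : Tab dflt Ev PT tb vt K) {src dst : E → V}
    (h3 : H3 src dst) {N : Finset ℕ} {par : ℕ → ℕ} {B : ℕ → Finset V}
    (hD : TD src dst K N par B) (hmin : ∀ i ∈ N, i ≠ 0 → ¬ B i ⊆ B (par i)) {t : E → ℕ}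
    (ht : ∀ e, src e ≠ dst e → t e ∈ N ∧ src e ∈ B (t e) ∧ dst e ∈ B (t e)) {m : ℕ}
    (hm : m ≠ 0) {own : ℕ → ℕ} (hS : Stage tb src dst N B t (m + 1) own) :
    ∃ own', Stage tb src dst N B t m own' := by
  by_cases hmN : m ∈ N
  swap
  · refine ⟨own, ⟨fun i hi => ?_, fun i hi him => hS.fix i hi (by omega), hS.sep,
      fun j hj hjm => hS.good j hj (by omega)⟩⟩
    obtain ⟨h1, h2⟩ := hS.lt i hi
    refine ⟨h1, ?_⟩
    have : own i ≠ m := fun h => hmN (h ▸ h1)
    omega
  obtain ⟨hpN, hpm⟩ := hD.up m hmN hm
  have howm : own m = m := hS.fix m hmN (by omega)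
  have howp : own (par m) = par m := hS.fix _ hpN (by omega)
  obtain ⟨p, hp⟩ : ∃ p, p = par m := ⟨_, rfl⟩
  rw [← hp] at hpN hpm howp
  -- the part of the node `m`
  have hGm := hS.good m hmN (by omega)
  have hGp := hS.good p hpN (by omega)
  have hcf : ∀ x ∈ B m \ B p, CF src dst
      (univ.filter (fun e => src e ≠ dst e ∧ own (t e) = m)) x := by
    intro x hx e he hex
    rw [mem_sdiff] at hx
    rw [mem_filter]
    refine ⟨mem_univ _, he, ?_⟩
    by_contra hne
    obtain ⟨ht1, ht2, ht4⟩ := ht e he
    have hxt : x ∈ B (t e) := by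
      rcases hex with h | h
      · rw [← h]; exact ht2
      · rw [← h]; exact ht4
    have h5 := hS.sep (t e) ht1 m hmN x hxt hx.1 (by rw [howm]; exact hne)
    obtain ⟨h6, h7⟩ := hS.lt (t e) ht1
    apply hx.2
    rw [hp]
    exact hD.conn m hmN _ h6 x (by omega) hx.1 h5
  have hGm' := hGm.forgets hT h3 (B m \ B p) (B m) sdiff_subset hcf
  have hZ : B m \ (B m \ B p) = B m ∩ B p := by
    ext x
    simp only [mem_sdiff, mem_inter]
    tauto
  rw [hZ] at hGm'
  have hcard : (B m ∩ B p).card < K := by
    refine lt_of_lt_of_le (card_lt_card ?_) (hD.card m hmN)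
    rw [ssubset_iff_subset_ne]
    refine ⟨inter_subset_left, fun h => hmin m hmN hm ?_⟩
    rw [← hp]
    exact inter_eq_left.mp h
  have hmem : ∀ j x, x ∈ (N.filter (fun i => own i = j)).biUnion B ↔
      ∃ i ∈ N, own i = j ∧ x ∈ B i := by
    intro j x
    simp only [mem_biUnion, mem_filter]
    constructor
    · rintro ⟨i, ⟨h1, h2⟩, h4⟩; exact ⟨i, h1, h2, h4⟩
    · rintro ⟨i, h1, h2, h4⟩; exact ⟨i, ⟨h1, h2⟩, h4⟩
  have hnew := hGp.attach hT hGm' hcard inter_subset_right (by
      intro x hx hx2
      obtain ⟨i, hi, hi2, hi4⟩ := (hmem m x).mp hx2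
      have := hS.sep i hi p hpN x hi4 hx (by rw [hi2, howp]; omega)
      rw [hi2] at this
      exact mem_inter.mpr ⟨this, hx⟩) (by
      rw [disjoint_left]
      intro e he1 he2
      rw [mem_filter] at he1 he2
      have := he1.2.2.symm.trans he2.2.2
      omega) (by
      intro x hx1 hx2
      obtain ⟨i, hi, hi2, hi4⟩ := (hmem p x).mp hx1
      obtain ⟨j, hj, hj2, hj4⟩ := (hmem m x).mp hx2
      have := hS.sep i hi j hj x hi4 hj4 (by rw [hi2, hj2]; omega)
      rw [hi2] at this
      exact this)
  refine ⟨fun i => if own i = m then p else own i, ⟨?_, ?_, ?_, ?_⟩⟩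
  · intro i hi
    obtain ⟨h1, h2⟩ := hS.lt i hi
    change (if own i = m then p else own i) ∈ N ∧ (if own i = m then p else own i) < m
    by_cases h : own i = m
    · rw [if_pos h]; exact ⟨hpN, hpm⟩
    · rw [if_neg h]; exact ⟨h1, by omega⟩
  · intro i hi him
    have h1 := hS.fix i hi (by omega)
    change (if own i = m then p else own i) = i
    rw [if_neg (by omega)]
    exact h1
  · intro i hi j hj x hxi hxj hne
    change x ∈ B (if own i = m then p else own i)
    change (if own i = m then p else own i) ≠ (if own j = m then p else own j) at hne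
    have hne' : own i ≠ own j := by
      intro h; apply hne; rw [h]
    have h1 := hS.sep i hi j hj x hxi hxj hne'
    have h2 := hS.sep j hj i hi x hxj hxi (Ne.symm hne')
    obtain ⟨h5, h6⟩ := hS.lt j hj
    by_cases h : own i = m
    · rw [if_pos h]
      rw [h] at h1
      rw [hp]
      exact hD.conn m hmN _ h5 x (by omega) h1 h2
    · rw [if_neg h]; exact h1
  · intro j hj hjm
    by_cases hjp : j = p
    · subst hjp
      have e1 : (univ.filter (fun e => src e ≠ dst e ∧
          (if own (t e) = m then j else own (t e)) = j))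
          = univ.filter (fun e => src e ≠ dst e ∧ own (t e) = j) ∪
            univ.filter (fun e => src e ≠ dst e ∧ own (t e) = m) := by
        ext e
        simp only [mem_filter, mem_univ, true_and, mem_union]
        by_cases h : own (t e) = m
        · simp only [h, if_true]
          constructor
          · rintro ⟨h1, _⟩; exact Or.inr ⟨h1, trivial⟩
          · rintro (⟨h1, _⟩ | ⟨h1, _⟩) <;> exact ⟨h1, trivial⟩
        · simp only [h, if_false]
          tauto
      have e2 : (N.filter (fun i => (if own i = m then j else own i) = j)).biUnion B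
          = (N.filter (fun i => own i = j)).biUnion B ∪
            (N.filter (fun i => own i = m)).biUnion B := by
        ext x
        simp only [mem_biUnion, mem_filter, mem_union]
        constructor
        · rintro ⟨i, ⟨h1, h2⟩, h4⟩
          by_cases h : own i = m
          · exact Or.inr ⟨i, ⟨h1, h⟩, h4⟩
          · rw [if_neg h] at h2
            exact Or.inl ⟨i, ⟨h1, h2⟩, h4⟩
        · rintro (⟨i, ⟨h1, h2⟩, h4⟩ | ⟨i, ⟨h1, h2⟩, h4⟩)
          · refine ⟨i, ⟨h1, ?_⟩, h4⟩
            rw [if_neg (by omega)]; exact h2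
          · exact ⟨i, ⟨h1, by rw [if_pos h2]⟩, h4⟩
      change GoodF tb src dst (univ.filter (fun e => src e ≠ dst e ∧
          (if own (t e) = m then j else own (t e)) = j))
          ((N.filter (fun i => (if own i = m then j else own i) = j)).biUnion B) (B j)
      rw [e1, e2]
      exact hnew
    · have e1 : (univ.filter (fun e => src e ≠ dst e ∧
          (if own (t e) = m then p else own (t e)) = j))
          = univ.filter (fun e => src e ≠ dst e ∧ own (t e) = j) := by
        ext e
        simp only [mem_filter, mem_univ, true_and]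
        by_cases h : own (t e) = m
        · rw [if_pos h, h]
          constructor
          · rintro ⟨_, h1⟩; exact absurd h1.symm hjp
          · rintro ⟨_, h1⟩; omega
        · rw [if_neg h]
      have e2 : (N.filter (fun i => (if own i = m then p else own i) = j))
          = (N.filter (fun i => own i = j)) := by
        ext i
        simp only [mem_filter]
        by_cases h : own i = m
        · rw [if_pos h, h]
          constructor
          · rintro ⟨_, h1⟩; exact absurd h1.symm hjp
          · rintro ⟨_, h1⟩; omega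
        · rw [if_neg h]
      change GoodF tb src dst (univ.filter (fun e => src e ≠ dst e ∧
          (if own (t e) = m then p else own (t e)) = j))
          ((N.filter (fun i => (if own i = m then p else own i) = j)).biUnion B) (B j)
      rw [e1, e2]
      exact hS.good j hj (by omega)

theorem Stage.all [Fintype E] (hT : Tab dflt Ev PT tb vt K) {src dst : E → V}
    (h3 : H3 src dst) {N : Finset ℕ} {par : ℕ → ℕ} {B : ℕ → Finset V}
    (hD : TD src dst K N par B) (hmin : ∀ i ∈ N, i ≠ 0 → ¬ B i ⊆ B (par i)) {t : E → ℕ}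
    (ht : ∀ e, src e ≠ dst e → t e ∈ N ∧ src e ∈ B (t e) ∧ dst e ∈ B (t e)) (m : ℕ) :
    ∀ own, Stage tb src dst N B t (m + 1) own → ∃ own', Stage tb src dst N B t 1 own' := by
  induction m with
  | zero => intro own h; exact ⟨own, h⟩
  | succ m ih =>
    intro own h
    obtain ⟨own', h'⟩ := h.step hT h3 hD hmin ht (by omega)
    exact ih own' h'

/-- a graph with a tree decomposition into bags of at most `K` vertices -/
theorem ext_of_TD [Fintype V] [Fintype E] (hT : Tab dflt Ev PT tb vt K) {src dst : E → V}
    (h3 : H3 src dst) {N : Finset ℕ} {par : ℕ → ℕ} {B : ℕ → Finset V} (v0 : V)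
    (hD : TD src dst K N par B) (hn : ∀ i, ∀ x ∈ B i, Nis src dst x) :
    Ext src dst (ind src dst univ) (fun _ => 0) := by
  classical
  obtain ⟨N', par', hD', hmin⟩ := TD.minimal _ N par rfl hD
  have hex : ∀ e, ∃ i, src e ≠ dst e → i ∈ N' ∧ src e ∈ B i ∧ dst e ∈ B i := by
    intro e
    by_cases he : src e = dst e
    · exact ⟨0, fun h => absurd he h⟩
    · obtain ⟨i, h1, h2⟩ := hD'.edge e he
      exact ⟨i, fun _ => ⟨h1, h2⟩⟩
  choose t ht using hex
  have hbig : ∃ m, ∀ i ∈ N', i < m + 1 := by
    obtain ⟨m, hm⟩ := N'.bddAbove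
    exact ⟨m, fun i hi => Nat.lt_succ_of_le (hm hi)⟩
  obtain ⟨m, hm⟩ := hbig
  have hS0 : Stage tb src dst N' B t (m + 1) (fun i => i) := by
    refine ⟨fun i hi => ⟨hi, hm i hi⟩, fun i _ _ => rfl, fun i _ j _ x h _ _ => h, ?_⟩
    intro j hj _
    have e1 : (N'.filter (fun i => i = j)).biUnion B = B j := by
      ext x
      simp only [mem_biUnion, mem_filter]
      constructor
      · rintro ⟨i, ⟨_, rfl⟩, h⟩; exact h
      · intro h; exact ⟨j, ⟨hj, rfl⟩, h⟩
    change GoodF tb src dst (univ.filter (fun e => src e ≠ dst e ∧ t e = j))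
      ((N'.filter (fun i => i = j)).biUnion B) (B j)
    rw [e1]
    refine GoodF.bagE hT src dst v0 (hD'.card j hj) (hn j) _ ?_
    intro e he
    rw [mem_filter] at he
    obtain ⟨_, h1, h2⟩ := he
    have := ht e h1
    rw [h2] at this
    exact ⟨h1, this.2⟩
  obtain ⟨own, hS⟩ := Stage.all hT h3 hD' hmin ht m _ hS0
  have hG := hS.good 0 hD'.root (by omega)
  have hF : (univ.filter (fun e => src e ≠ dst e ∧ own (t e) = 0)) = ind src dst univ := by
    ext e
    rw [mem_ind, mem_filter]
    constructor
    · rintro ⟨_, h, _⟩; exact ⟨h, mem_univ _, mem_univ _⟩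
    · rintro ⟨h, _, _⟩
      have := (hS.lt (t e) (ht e h).1).2
      exact ⟨mem_univ _, h, by omega⟩
  rw [hF] at hG
  have hG' := hG.forgets hT h3 (B 0) (B 0) subset_rfl
    (fun x _ e he _ => mem_ind.mpr ⟨he, mem_univ _, mem_univ _⟩)
  rw [sdiff_self] at hG'
  obtain ⟨i, k, β, hk, hR, hl⟩ := hG'.st
  have hk0 : k = 0 := by
    rw [← hl.card]; rfl
  subst hk0
  have h1 := (hT.tst i).z hk
  exact (hR.fl 0 (by norm_num) h1).congr fun x => by simp [push]

end Pool.Agent.TH497.TW
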